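import Mathlib

section

open CategoryTheory CategoryTheory.Limits CategoryTheory.Abelian

universe u

namespace Pool.Agent.MP_46786a_al

variable (R : Type u) [Ring R]

/-- Vanishing of an Ext group between unbundled modules. -/
def EZ (U E : Type u) [AddCommGroup U] [Module R U] [AddCommGroup E] [Module R E] (i : ℕ) : Prop :=
  ∀ e : Ext (ModuleCat.of R U) (ModuleCat.of R E) i, e = 0

variable {R}

/-- Short exact sequences of unbundled modules. -/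
structure SE {A B C : Type u} [AddCommGroup A] [Module R A] [AddCommGroup B] [Module R B]
    [AddCommGroup C] [Module R C] (f : A →ₗ[R] B) (g : B →ₗ[R] C) : Prop where
  inj : Function.Injective f
  ex : Function.Exact f g
  surj : Function.Surjective g

section

variable {A B C U E : Type u} [AddCommGroup A] [Module R A] [AddCommGroup B] [Module R B]
    [AddCommGroup C] [Module R C] [AddCommGroup U] [Module R U] [AddCommGroup E] [Module R E]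
    {f : A →ₗ[R] B} {g : B →ₗ[R] C}

theorem SE.ker (g : B →ₗ[R] C) (hg : Function.Surjective g) :
    SE (LinearMap.ker g).subtype g :=
  ⟨(LinearMap.ker g).injective_subtype, LinearMap.exact_subtype_ker_map g, hg⟩

theorem SE.coker (f : A →ₗ[R] B) (hf : Function.Injective f) :
    SE f (LinearMap.range f).mkQ :=
  ⟨hf, LinearMap.exact_map_mkQ_range f, (LinearMap.range f).mkQ_surjective⟩

theorem SE.sub (N : Submodule R B) : SE N.subtype N.mkQ :=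
  ⟨N.injective_subtype, LinearMap.exact_subtype_mkQ N, N.mkQ_surjective⟩

/-- The short complex attached to a short exact sequence. -/
abbrev SE.sc (h : SE f g) : ShortComplex (ModuleCat.{u} R) :=
  ModuleCat.shortComplexOfCompEqZero f g h.ex.linearMap_comp_eq_zero

theorem SE.shortExact (h : SE f g) : h.sc.ShortExact :=
  ModuleCat.shortComplex_shortExact _ h.ex h.inj h.surj

theorem SE.cov₁ (h : SE f g) {i : ℕ} (hC : EZ R U C i) (hB : EZ R U B (i + 1)) :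
    EZ R U A (i + 1) := by
  intro e
  obtain ⟨x, rfl⟩ := Ext.covariant_sequence_exact₁ _ h.shortExact e (hB _) rfl
  rw [hC x, Ext.zero_comp]

theorem SE.cov₂ (h : SE f g) {i : ℕ} (hA : EZ R U A i) (hC : EZ R U C i) :
    EZ R U B i := by
  intro e
  obtain ⟨x, rfl⟩ := Ext.covariant_sequence_exact₂ _ h.shortExact e (hC _)
  rw [hA x, Ext.zero_comp]

theorem SE.cov₃ (h : SE f g) {i : ℕ} (hB : EZ R U B i) (hA : EZ R U A (i + 1)) :
    EZ R U C i := by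
  intro e
  obtain ⟨x, rfl⟩ := Ext.covariant_sequence_exact₃ _ h.shortExact e rfl (hA _)
  rw [hB x, Ext.zero_comp]

theorem SE.con₁ (h : SE f g) {i : ℕ} (hB : EZ R B E i) (hC : EZ R C E (i + 1)) :
    EZ R A E i := by
  intro e
  obtain ⟨x, rfl⟩ := Ext.contravariant_sequence_exact₁ h.shortExact _ e (add_comm 1 i) (hC _)
  rw [hB x, Ext.comp_zero]

theorem SE.con₂ (h : SE f g) {i : ℕ} (hA : EZ R A E i) (hC : EZ R C E i) :
    EZ R B E i := by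
  intro e
  obtain ⟨x, rfl⟩ := Ext.contravariant_sequence_exact₂ h.shortExact _ e (hA _)
  rw [hC x, Ext.comp_zero]

theorem SE.con₃ (h : SE f g) {i : ℕ} (hA : EZ R A E i) (hB : EZ R B E (i + 1)) :
    EZ R C E (i + 1) := by
  intro e
  obtain ⟨x, rfl⟩ := Ext.contravariant_sequence_exact₃ h.shortExact _ e (hB _) (add_comm 1 i)
  rw [hA x, Ext.comp_zero]

theorem SE.lift (h : SE f g) (hA : EZ R U A 1) (φ : U →ₗ[R] C) :
    ∃ ψ : U →ₗ[R] B, g ∘ₗ ψ = φ := by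
  obtain ⟨x, hx⟩ := Ext.covariant_sequence_exact₃ _ h.shortExact
    (Ext.mk₀ (ModuleCat.ofHom φ)) rfl (hA _)
  obtain ⟨y, rfl⟩ := (Ext.mk₀_bijective _ _).2 x
  rw [Ext.mk₀_comp_mk₀] at hx
  exact ⟨y.hom, ModuleCat.hom_ext_iff.mp ((Ext.mk₀_bijective _ _).1 hx)⟩

theorem SE.of_lift (h : SE f g) (hl : ∀ φ : U →ₗ[R] C, ∃ ψ : U →ₗ[R] B, g ∘ₗ ψ = φ)
    (hB : EZ R U B 1) : EZ R U A 1 := by
  intro e
  obtain ⟨x, rfl⟩ := Ext.covariant_sequence_exact₁ _ h.shortExact e (hB _) rfl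
  obtain ⟨y, rfl⟩ := (Ext.mk₀_bijective _ _).2 x
  obtain ⟨ψ, hψ⟩ := hl y.hom
  have : y = ModuleCat.ofHom ψ ≫ h.sc.g := ModuleCat.hom_ext hψ.symm
  rw [this, ← Ext.mk₀_comp_mk₀, Ext.comp_assoc_of_second_deg_zero,
    h.shortExact.comp_extClass, Ext.comp_zero]

theorem SE.extend (h : SE f g) (hC : EZ R C E 1) (φ : A →ₗ[R] E) :
    ∃ ψ : B →ₗ[R] E, ψ ∘ₗ f = φ := by
  obtain ⟨x, hx⟩ := Ext.contravariant_sequence_exact₁ h.shortExact _
    (Ext.mk₀ (ModuleCat.ofHom φ)) rfl (hC _)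
  obtain ⟨y, rfl⟩ := (Ext.mk₀_bijective _ _).2 x
  rw [Ext.mk₀_comp_mk₀] at hx
  exact ⟨y.hom, ModuleCat.hom_ext_iff.mp ((Ext.mk₀_bijective _ _).1 hx)⟩

theorem SE.of_extend (h : SE f g) (hl : ∀ φ : A →ₗ[R] E, ∃ ψ : B →ₗ[R] E, ψ ∘ₗ f = φ)
    (hB : EZ R B E 1) : EZ R C E 1 := by
  intro e
  obtain ⟨x, rfl⟩ := Ext.contravariant_sequence_exact₃ h.shortExact _ e (hB _) (n₀ := 0) rfl
  obtain ⟨y, rfl⟩ := (Ext.mk₀_bijective _ _).2 x
  obtain ⟨ψ, hψ⟩ := hl y.hom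
  have : y = h.sc.f ≫ ModuleCat.ofHom ψ := ModuleCat.hom_ext hψ.symm
  rw [this, ← Ext.mk₀_comp_mk₀]
  exact h.shortExact.extClass_comp_assoc _

theorem EZ.of_projective [Module.Projective R U] (i : ℕ) : EZ R U E (i + 1) := by
  intro e
  have : Projective (ModuleCat.of R U) := (IsProjective.iff_projective U).1 inferInstance
  exact Ext.eq_zero_of_projective e

theorem EZ.of_injective [Module.Injective R E] (i : ℕ) : EZ R U E (i + 1) := by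
  intro e
  have : Injective (ModuleCat.of R E) := Module.injective_object_of_injective_module R E
  exact Ext.eq_zero_of_injective e

theorem EZ.retract_left {i : ℕ} (h : EZ R B E i) (a : A →ₗ[R] B) (b : B →ₗ[R] A)
    (hab : b ∘ₗ a = LinearMap.id) : EZ R A E i := by
  intro e
  have h1 : (ModuleCat.ofHom a ≫ ModuleCat.ofHom b) = 𝟙 (ModuleCat.of R A) :=
    ModuleCat.hom_ext hab
  rw [← Ext.mk₀_id_comp e, ← h1, ← Ext.mk₀_comp_mk₀_assoc, h ((Ext.mk₀ _).comp e _),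
    Ext.comp_zero]

theorem EZ.retract_right {i : ℕ} (h : EZ R U B i) (a : A →ₗ[R] B) (b : B →ₗ[R] A)
    (hab : b ∘ₗ a = LinearMap.id) : EZ R U A i := by
  intro e
  have h1 : (ModuleCat.ofHom a ≫ ModuleCat.ofHom b) = 𝟙 (ModuleCat.of R A) :=
    ModuleCat.hom_ext hab
  rw [← Ext.comp_mk₀_id e, ← h1, ← Ext.mk₀_comp_mk₀, ← Ext.comp_assoc_of_third_deg_zero,
    h (e.comp (Ext.mk₀ _) _), Ext.zero_comp]

theorem EZ.equiv_left {i : ℕ} (h : EZ R B E i) (a : A ≃ₗ[R] B) : EZ R A E i :=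
  h.retract_left a.toLinearMap a.symm.toLinearMap (by ext; simp)

theorem EZ.equiv_right {i : ℕ} (h : EZ R U B i) (a : A ≃ₗ[R] B) : EZ R U A i :=
  h.retract_right a.toLinearMap a.symm.toLinearMap (by ext; simp)

theorem EZ.of_subsingleton_left [Subsingleton U] (i : ℕ) : EZ R U E i := by
  intro e
  have h1 : 𝟙 (ModuleCat.of R U) = 0 := ModuleCat.hom_ext (Subsingleton.elim _ _)
  rw [← Ext.mk₀_id_comp e, h1, Ext.mk₀_zero, Ext.zero_comp]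

variable (R) in
theorem exists_injective_embedding (E : Type u) [AddCommGroup E] [Module R E] :
    ∃ (I : ModuleCat.{u} R) (_ : Module.Injective R I) (f : E →ₗ[R] I),
      Function.Injective f := by
  obtain ⟨p⟩ := EnoughInjectives.presentation (ModuleCat.of R E)
  have := p.injective
  have := p.mono
  exact ⟨p.J, Module.injective_module_of_injective_object R p.J, p.f.hom,
    (ModuleCat.mono_iff_injective p.f).1 inferInstance⟩

/-- The canonical free cover. -/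
noncomputable abbrev cover (R : Type u) [Ring R] (U : Type u) [AddCommGroup U] [Module R U] :
    (U →₀ R) →ₗ[R] U := Finsupp.linearCombination R (id : U → U)

theorem cover_surjective : Function.Surjective (cover R U) := fun x =>
  ⟨Finsupp.single x 1, by simp [cover]⟩

theorem EZ.syz_iff {F K : Type u} [AddCommGroup F] [Module R F] [AddCommGroup K] [Module R K]
    [Module.Projective R F] {a : K →ₗ[R] F} {b : F →ₗ[R] U} (h : SE a b) (i : ℕ) :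
    EZ R K E (i + 1) ↔ EZ R U E (i + 2) :=
  ⟨fun hK => h.con₃ hK (EZ.of_projective _), fun hU => h.con₁ (EZ.of_projective _) hU⟩

theorem EZ.cosyz_iff {I K : Type u} [AddCommGroup I] [Module R I] [AddCommGroup K] [Module R K]
    [Module.Injective R I] {a : E →ₗ[R] I} {b : I →ₗ[R] K} (h : SE a b) (i : ℕ) :
    EZ R U K (i + 1) ↔ EZ R U E (i + 2) :=
  ⟨fun hK => h.cov₁ hK (EZ.of_injective _), fun hE => h.cov₃ (EZ.of_injective _) hE⟩

end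

theorem EZ.pi {ι : Type u} {E : ι → Type u} [∀ a, AddCommGroup (E a)] [∀ a, Module R (E a)]
    (i : ℕ) : ∀ (U : Type u) [AddCommGroup U] [Module R U],
      (∀ a, EZ R U (E a) (i + 1)) → EZ R U (∀ a, E a) (i + 1) := by
  induction i with
  | zero =>
    intro U _ _ h
    have hs := SE.ker (cover R U) cover_surjective
    refine hs.of_extend (fun φ => ?_) (EZ.of_projective _)
    choose ψ hψ using fun a => hs.extend (h a) (LinearMap.proj a ∘ₗ φ)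
    refine ⟨LinearMap.pi ψ, ?_⟩
    ext x a
    exact congr($(hψ a) x)
  | succ i ih =>
    intro U _ _ h
    have hs := SE.ker (cover R U) cover_surjective
    exact (EZ.syz_iff hs i).1 (ih _ fun a => (EZ.syz_iff hs i).2 (h a))

theorem EZ.finsupp_left {U E : Type u} [AddCommGroup U] [Module R U] [AddCommGroup E] [Module R E]
    (h : EZ R U E 1) (X : Type u) : EZ R (X →₀ U) E 1 := by
  obtain ⟨I, _, f, hf⟩ := exists_injective_embedding R E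
  have hs := SE.coker f hf
  refine hs.of_lift (fun φ => ?_) (EZ.of_injective _)
  choose ψ hψ using fun x : X => hs.lift h (φ ∘ₗ Finsupp.lsingle x)
  refine ⟨Finsupp.lsum ℕ ψ, ?_⟩
  ext x y
  simpa using congr($(hψ x) y)

end Pool.Agent.MP_46786a_al

end

section

universe v v' u

namespace Pool.Agent.MP_46786a_al

/-- A small family of cells: injective maps between finitely presented modules. -/
structure CellFam (R : Type u) [Ring R] where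
  C : Type u
  U : C → ModuleCat.{u} R
  V : C → ModuleCat.{u} R
  u : ∀ c, U c →ₗ[R] V c
  inj : ∀ c, Function.Injective (u c)
  fpU : ∀ c, Module.FinitePresentation R (U c)
  fpV : ∀ c, Module.FinitePresentation R (V c)

attribute [instance] CellFam.fpU CellFam.fpV

variable {R : Type u} [Ring R] (𝒞 : CellFam R) (Q₀ : Type u) [AddCommGroup Q₀] [Module R Q₀]

/-- A module over the base `Q₀` with chosen fillers for all squares from cells. -/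
structure Alg where
  car : ModuleCat.{v} R
  q : car →ₗ[R] Q₀
  fill : ∀ c, (𝒞.U c →ₗ[R] car) → (𝒞.V c →ₗ[R] Q₀) → (𝒞.V c →ₗ[R] car)
  fill_u : ∀ c ψ τ, q ∘ₗ ψ = τ ∘ₗ 𝒞.u c → fill c ψ τ ∘ₗ 𝒞.u c = ψ
  fill_q : ∀ c ψ τ, q ∘ₗ ψ = τ ∘ₗ 𝒞.u c → q ∘ₗ fill c ψ τ = τ

variable {𝒞 Q₀}

/-- Morphisms of algebras. -/
structure IsHom (A : Alg.{v} 𝒞 Q₀) (B : Alg.{v'} 𝒞 Q₀) (φ : A.car →ₗ[R] B.car) : Prop where
  q : B.q ∘ₗ φ = A.q
  fill : ∀ c ψ τ, A.q ∘ₗ ψ = τ ∘ₗ 𝒞.u c → φ ∘ₗ A.fill c ψ τ = B.fill c (φ ∘ₗ ψ) τ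

theorem IsHom.id (A : Alg.{v} 𝒞 Q₀) : IsHom A A LinearMap.id :=
  ⟨rfl, fun _ _ _ _ => rfl⟩

theorem IsHom.comp {A : Alg.{u} 𝒞 Q₀} {B : Alg.{v} 𝒞 Q₀} {C : Alg.{v'} 𝒞 Q₀}
    {φ : A.car →ₗ[R] B.car} {χ : B.car →ₗ[R] C.car}
    (hχ : IsHom B C χ) (hφ : IsHom A B φ) : IsHom A C (χ ∘ₗ φ) := by
  refine ⟨by rw [← LinearMap.comp_assoc, hχ.q, hφ.q], fun c ψ τ h => ?_⟩
  rw [LinearMap.comp_assoc, hφ.fill c ψ τ h, hχ.fill, LinearMap.comp_assoc]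
  rw [← LinearMap.comp_assoc, hφ.q, h]

variable {M : Type u} [AddCommGroup M] [Module R M]

variable (𝒞 M) in
/-- Prescribed fillers on a module. -/
abbrev PD := Set (Σ c : 𝒞.C, (𝒞.V c →ₗ[R] M))

/-- Prescribed fillers are determined by their image in the base. -/
def Good (q : M →ₗ[R] Q₀) (D : PD 𝒞 M) : Prop :=
  ∀ c (σ σ' : 𝒞.V c →ₗ[R] M), ⟨c, σ⟩ ∈ D → ⟨c, σ'⟩ ∈ D → q ∘ₗ σ = q ∘ₗ σ' → σ = σ'

/-- Maps from a module with prescribed fillers to an algebra that respect the fillers. -/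
structure Compat (q : M →ₗ[R] Q₀) (D : PD 𝒞 M) (A : Alg.{v} 𝒞 Q₀) (h : M →ₗ[R] A.car) :
    Prop where
  base : A.q ∘ₗ h = q
  fill : ∀ c σ, ⟨c, σ⟩ ∈ D → A.fill c (h ∘ₗ σ ∘ₗ 𝒞.u c) (q ∘ₗ σ) = h ∘ₗ σ

theorem Compat.comp {q : M →ₗ[R] Q₀} {D : PD 𝒞 M} {A : Alg.{v} 𝒞 Q₀} {B : Alg.{v'} 𝒞 Q₀}
    {h : M →ₗ[R] A.car} (hh : Compat q D A h) {φ : A.car →ₗ[R] B.car} (hφ : IsHom A B φ) :
    Compat q D B (φ ∘ₗ h) := by
  refine ⟨by rw [← LinearMap.comp_assoc, hφ.q, hh.base], fun c σ hσ => ?_⟩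
  rw [LinearMap.comp_assoc, ← hφ.fill, hh.fill c σ hσ, LinearMap.comp_assoc]
  rw [← LinearMap.comp_assoc, hh.base, LinearMap.comp_assoc]

/-- A submodule of an algebra closed under the fillers. -/
def Alg.Closed (A : Alg.{v} 𝒞 Q₀) (N : Submodule R A.car) : Prop :=
  ∀ c ψ τ, A.q ∘ₗ ψ = τ ∘ₗ 𝒞.u c → LinearMap.range ψ ≤ N → LinearMap.range (A.fill c ψ τ) ≤ N

/-- The free algebra on a module with prescribed fillers. -/
structure IsFree (q : M →ₗ[R] Q₀) (D : PD 𝒞 M) (Z : Alg.{u} 𝒞 Q₀) (η : M →ₗ[R] Z.car) :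
    Prop where
  compat : Compat q D Z η
  inj : Function.Injective η
  univ : ∀ (A : Alg.{u} 𝒞 Q₀) (h : M →ₗ[R] A.car), Compat q D A h →
    ∃ φ, IsHom Z A φ ∧ φ ∘ₗ η = h
  gen : ∀ N : Submodule R Z.car, LinearMap.range η ≤ N → Z.Closed N → N = ⊤

theorem IsFree.hom_ext {q : M →ₗ[R] Q₀} {D : PD 𝒞 M} {Z : Alg.{u} 𝒞 Q₀} {η : M →ₗ[R] Z.car}
    (hZ : IsFree q D Z η) {A : Alg.{v} 𝒞 Q₀} {φ φ' : Z.car →ₗ[R] A.car} (hφ : IsHom Z A φ)
    (hφ' : IsHom Z A φ') (h : φ ∘ₗ η = φ' ∘ₗ η) : φ = φ' := by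
  have := hZ.gen (LinearMap.eqLocus φ φ') (by
    rintro _ ⟨x, rfl⟩
    exact congr($h x)) (by
    intro c ψ τ hc hψ
    have h1 : φ ∘ₗ ψ = φ' ∘ₗ ψ := LinearMap.ext fun x => hψ ⟨x, rfl⟩
    rintro _ ⟨x, rfl⟩
    have h2 : φ ∘ₗ Z.fill c ψ τ = φ' ∘ₗ Z.fill c ψ τ := by
      rw [hφ.fill c ψ τ hc, hφ'.fill c ψ τ hc, h1]
    exact congr($h2 x))
  exact LinearMap.eqLocus_eq_top.1 this

section adjust

open Classical in
/-- Change the fillers of an algebra so that they respect prescribed fillers. -/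
noncomputable def Alg.adjust (A : Alg.{v} 𝒞 Q₀) (q : M →ₗ[R] Q₀) (D : PD 𝒞 M)
    (h : M →ₗ[R] A.car) (hq : A.q ∘ₗ h = q) : Alg.{v} 𝒞 Q₀ where
  car := A.car
  q := A.q
  fill c ψ τ :=
    if H : ∃ σ, ⟨c, σ⟩ ∈ D ∧ ψ = h ∘ₗ σ ∘ₗ 𝒞.u c ∧ τ = q ∘ₗ σ then h ∘ₗ H.choose
    else A.fill c ψ τ
  fill_u c ψ τ hc := by
    split_ifs with H
    · exact H.choose_spec.2.1.symm
    · exact A.fill_u c ψ τ hc
  fill_q c ψ τ hc := by
    split_ifs with H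
    · rw [← LinearMap.comp_assoc, hq]; exact H.choose_spec.2.2.symm
    · exact A.fill_q c ψ τ hc

theorem Alg.adjust_compat (A : Alg.{v} 𝒞 Q₀) {q : M →ₗ[R] Q₀} {D : PD 𝒞 M} (hD : Good q D)
    (h : M →ₗ[R] A.car) (hq : A.q ∘ₗ h = q) : Compat q D (A.adjust q D h hq) h := by
  refine ⟨hq, fun c σ hσ => ?_⟩
  have H : ∃ σ', ⟨c, σ'⟩ ∈ D ∧ h ∘ₗ σ ∘ₗ 𝒞.u c = h ∘ₗ σ' ∘ₗ 𝒞.u c ∧ q ∘ₗ σ = q ∘ₗ σ' :=
    ⟨σ, hσ, rfl, rfl⟩
  refine (dif_pos H : (A.adjust q D h hq).fill c _ _ = _).trans ?_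
  exact congrArg (h ∘ₗ ·) (hD c σ _ hσ H.choose_spec.1 H.choose_spec.2.2).symm

theorem Alg.adjust_fill (A : Alg.{v} 𝒞 Q₀) (q : M →ₗ[R] Q₀) (D : PD 𝒞 M)
    (h : M →ₗ[R] A.car) (hq : A.q ∘ₗ h = q) (c : 𝒞.C) (ψ : 𝒞.U c →ₗ[R] A.car)
    (τ : 𝒞.V c →ₗ[R] Q₀) :
    (∃ σ, ⟨c, σ⟩ ∈ D ∧ ψ = h ∘ₗ σ ∘ₗ 𝒞.u c ∧ τ = q ∘ₗ σ ∧
      (A.adjust q D h hq).fill c ψ τ = h ∘ₗ σ) ∨
    (A.adjust q D h hq).fill c ψ τ = A.fill c ψ τ := by
  by_cases H : ∃ σ, ⟨c, σ⟩ ∈ D ∧ ψ = h ∘ₗ σ ∘ₗ 𝒞.u c ∧ τ = q ∘ₗ σ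
  · exact Or.inl ⟨H.choose, H.choose_spec.1, H.choose_spec.2.1, H.choose_spec.2.2, dif_pos H⟩
  · exact Or.inr (dif_neg H)

end adjust

/-- The product of an algebra with a module having chosen extensions along cells. -/
noncomputable def Alg.prodWith (A : Alg.{u} 𝒞 Q₀) (Q : Type u) [AddCommGroup Q] [Module R Q]
    (ρ : ∀ c, (𝒞.U c →ₗ[R] A.car) → (𝒞.V c →ₗ[R] Q₀) → (𝒞.U c →ₗ[R] Q) → (𝒞.V c →ₗ[R] Q))
    (hρ : ∀ c ψ τ ψ', A.q ∘ₗ ψ = τ ∘ₗ 𝒞.u c → ρ c ψ τ ψ' ∘ₗ 𝒞.u c = ψ') : Alg.{u} 𝒞 Q₀ where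
  car := ModuleCat.of R (A.car × Q)
  q := A.q ∘ₗ LinearMap.fst R _ _
  fill c ψ τ := LinearMap.prod (A.fill c (LinearMap.fst R _ _ ∘ₗ ψ) τ)
    (ρ c (LinearMap.fst R _ _ ∘ₗ ψ) τ (LinearMap.snd R _ _ ∘ₗ ψ))
  fill_u c ψ τ hc := by
    rw [LinearMap.prod_comp, A.fill_u c _ τ hc, hρ c _ τ _ hc]
    rfl
  fill_q c ψ τ hc := A.fill_q c _ τ hc

/-- The base as an algebra over itself. -/
def Alg.base (𝒞 : CellFam R) (Q₀ : Type u) [AddCommGroup Q₀] [Module R Q₀] : Alg.{u} 𝒞 Q₀ where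
  car := ModuleCat.of R Q₀
  q := LinearMap.id
  fill _ _ τ := τ
  fill_u _ _ _ hc := hc.symm
  fill_q _ _ _ _ := rfl

theorem exists_injective_compat {q : M →ₗ[R] Q₀} {D : PD 𝒞 M} (hD : Good q D) :
    ∃ (A : Alg.{u} 𝒞 Q₀) (h : M →ₗ[R] A.car), Compat q D A h ∧ Function.Injective h := by
  obtain ⟨I, hI, f, hf⟩ := exists_injective_embedding R M
  choose ρ hρ using fun (c : 𝒞.C) (ψ' : 𝒞.U c →ₗ[R] I) => hI.out (𝒞.u c) (𝒞.inj c) ψ'
  let A := (Alg.base 𝒞 Q₀).prodWith I (fun c _ _ ψ' => ρ c ψ')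
    (fun c _ _ ψ' _ => LinearMap.ext (hρ c ψ'))
  refine ⟨_, _, A.adjust_compat hD (LinearMap.prod q f) rfl, fun x y hxy => hf ?_⟩
  exact congrArg Prod.snd hxy

/-- Pull an algebra structure back along an injective map with closed range. -/
theorem Alg.exists_restrict (P : Alg.{v} 𝒞 Q₀) (Z : Type u) [AddCommGroup Z] [Module R Z]
    (ι : Z →ₗ[R] P.car) (hι : Function.Injective ι) (hcl : P.Closed (LinearMap.range ι)) :
    ∃ (A : Alg.{u} 𝒞 Q₀) (e : A.car ≃ₗ[R] Z), IsHom A P (ι ∘ₗ e.toLinearMap) := by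
  classical
  have key : ∀ c (ψ : 𝒞.U c →ₗ[R] Z) (τ : 𝒞.V c →ₗ[R] Q₀), ∃ σ : 𝒞.V c →ₗ[R] Z,
      (P.q ∘ₗ ι) ∘ₗ ψ = τ ∘ₗ 𝒞.u c → ι ∘ₗ σ = P.fill c (ι ∘ₗ ψ) τ := by
    intro c ψ τ
    by_cases hc : (P.q ∘ₗ ι) ∘ₗ ψ = τ ∘ₗ 𝒞.u c
    · have h1 := hcl c (ι ∘ₗ ψ) τ hc (LinearMap.range_comp_le_range _ _)
      refine ⟨(LinearEquiv.ofInjective ι hι).symm.toLinearMap ∘ₗ
        (P.fill c (ι ∘ₗ ψ) τ).codRestrict _ (fun x => h1 ⟨x, rfl⟩), fun _ => ?_⟩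
      ext x
      simp
    · exact ⟨0, fun h => (hc h).elim⟩
  choose fl hfl using key
  refine ⟨⟨ModuleCat.of R Z, P.q ∘ₗ ι, fl, fun c ψ τ hc => ?_, fun c ψ τ hc => ?_⟩,
    LinearEquiv.refl R Z, rfl, fun c ψ τ hc => hfl c ψ τ hc⟩
  · ext x
    apply hι
    have := congr($(hfl c ψ τ hc) (𝒞.u c x))
    exact this.trans congr($(P.fill_u c (ι ∘ₗ ψ) τ hc) x)
  · rw [LinearMap.comp_assoc, hfl c ψ τ hc, P.fill_q c _ τ hc]

/-- The fibred product over the base of a family of algebras. -/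
noncomputable def Alg.bigProd {J : Type v'} (A : J → Alg.{u} 𝒞 Q₀) : Alg.{max u v'} 𝒞 Q₀ := by
  classical
  exact
  { car := ModuleCat.of R (LinearMap.eqLocus
      (LinearMap.pi fun j => (A j).q ∘ₗ LinearMap.proj j ∘ₗ LinearMap.fst R (∀ j, (A j).car) Q₀)
      (LinearMap.pi fun _ : J => LinearMap.snd R (∀ j, (A j).car) Q₀))
    q := LinearMap.snd R _ _ ∘ₗ Submodule.subtype _
    fill := fun c ψ τ =>
      if hc : (LinearMap.snd R _ _ ∘ₗ Submodule.subtype _) ∘ₗ ψ = τ ∘ₗ 𝒞.u c then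
        LinearMap.codRestrict _ (LinearMap.prod (LinearMap.pi fun j => (A j).fill c
          (LinearMap.proj j ∘ₗ LinearMap.fst R _ _ ∘ₗ Submodule.subtype _ ∘ₗ ψ) τ) τ)
          (fun x => by
            funext j
            refine congr($((A j).fill_q c _ τ ?_) x)
            rw [← hc]
            ext y
            exact congrFun (ψ y).2 j)
      else 0
    fill_u := fun c ψ τ hc => by
      rw [dif_pos hc]
      ext x : 1
      apply Subtype.ext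
      refine Prod.ext (funext fun j => ?_) congr($hc x).symm
      refine LinearMap.congr_fun ((A j).fill_u c
        (LinearMap.proj j ∘ₗ LinearMap.fst R _ _ ∘ₗ Submodule.subtype _ ∘ₗ ψ) τ ?_) x
      rw [← hc]
      ext y
      exact congrFun (ψ y).2 j
    fill_q := fun c ψ τ hc => by
      rw [dif_pos hc]
      rfl }

/-- Projection from the fibred product. -/
noncomputable def Alg.bigProj {J : Type v'} (A : J → Alg.{u} 𝒞 Q₀) (j : J) :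
    (Alg.bigProd A).car →ₗ[R] (A j).car :=
  LinearMap.proj j ∘ₗ LinearMap.fst R _ _ ∘ₗ Submodule.subtype _

theorem Alg.isHom_bigProj {J : Type v'} (A : J → Alg.{u} 𝒞 Q₀) (j : J) :
    IsHom (Alg.bigProd A) (A j) (Alg.bigProj A j) := by
  refine ⟨?_, fun c ψ τ hc => ?_⟩
  · ext y
    exact congrFun y.2 j
  · exact congrArg (Alg.bigProj A j ∘ₗ ·) (dif_pos hc : (Alg.bigProd A).fill c ψ τ = _)

theorem Alg.bigProd_ext {J : Type v'} (A : J → Alg.{u} 𝒞 Q₀) {x y : (Alg.bigProd A).car}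
    (h : ∀ j, Alg.bigProj A j x = Alg.bigProj A j y)
    (hq : (Alg.bigProd A).q x = (Alg.bigProd A).q y) : x = y :=
  Subtype.ext (Prod.ext (funext h) hq)

theorem Alg.exists_bigLift {J : Type v'} (A : J → Alg.{u} 𝒞 Q₀) (q : M →ₗ[R] Q₀)
    (h : ∀ j, M →ₗ[R] (A j).car) (hh : ∀ j, (A j).q ∘ₗ h j = q) :
    ∃ η : M →ₗ[R] (Alg.bigProd A).car, (∀ j, Alg.bigProj A j ∘ₗ η = h j) ∧
      (Alg.bigProd A).q ∘ₗ η = q :=
  ⟨LinearMap.codRestrict _ (LinearMap.prod (LinearMap.pi h) q)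
    (fun x => funext fun j => congr($(hh j) x)), fun _ => rfl, rfl⟩

/-- The stages of the subalgebra generated by a submodule. -/
noncomputable def Alg.stage (P : Alg.{v} 𝒞 Q₀) (N : Submodule R P.car) : ℕ → Submodule R P.car
  | 0 => N
  | l + 1 => stage P N l ⊔
      ⨆ s : {s : Σ c : 𝒞.C, (𝒞.U c →ₗ[R] stage P N l) × (𝒞.V c →ₗ[R] Q₀) //
          P.q ∘ₗ (stage P N l).subtype ∘ₗ s.2.1 = s.2.2 ∘ₗ 𝒞.u s.1},
        LinearMap.range (P.fill s.1.1 ((stage P N l).subtype ∘ₗ s.1.2.1) s.1.2.2)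

theorem Alg.stage_mono (P : Alg.{v} 𝒞 Q₀) (N : Submodule R P.car) : Monotone (P.stage N) :=
  monotone_nat_of_le_succ fun _ => le_sup_left

theorem Alg.fill_le_stage (P : Alg.{v} 𝒞 Q₀) (N : Submodule R P.car) (l : ℕ) (c : 𝒞.C)
    (ψ : 𝒞.U c →ₗ[R] P.car) (τ : 𝒞.V c →ₗ[R] Q₀) (hc : P.q ∘ₗ ψ = τ ∘ₗ 𝒞.u c)
    (hψ : LinearMap.range ψ ≤ P.stage N l) :
    LinearMap.range (P.fill c ψ τ) ≤ P.stage N (l + 1) :=
  le_sup_of_le_right (le_iSup_of_le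
    ⟨⟨c, ψ.codRestrict _ (fun x => hψ ⟨x, rfl⟩), τ⟩, hc⟩ le_rfl)

theorem Alg.stage_le (P : Alg.{v} 𝒞 Q₀) {N N' : Submodule R P.car} (h : N ≤ N')
    (hN' : P.Closed N') (l : ℕ) : P.stage N l ≤ N' := by
  induction l with
  | zero => exact h
  | succ l ih =>
    refine sup_le ih (iSup_le fun s => hN' _ _ _ s.2 ?_)
    rintro _ ⟨x, rfl⟩
    exact ih (s.1.2.1 x).2

theorem exists_le_of_fg_le_iSup {P : Type v} [AddCommGroup P] [Module R P] {L : Submodule R P}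
    (hL : L.FG) {N : ℕ → Submodule R P} (hN : Monotone N) (h : L ≤ ⨆ l, N l) :
    ∃ l, L ≤ N l := by
  obtain ⟨s, hs⟩ := CompleteLattice.IsCompactElement.exists_finset_of_le_iSup _
    ((Submodule.fg_iff_compact L).1 hL) N h
  exact ⟨s.sup id, hs.trans (iSup₂_le fun i hi => hN (Finset.le_sup (f := id) hi))⟩

theorem Alg.closed_iSup_stage (P : Alg.{v} 𝒞 Q₀) (N : Submodule R P.car) :
    P.Closed (⨆ l, P.stage N l) := by
  intro c ψ τ hc hψ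
  obtain ⟨l, hl⟩ := exists_le_of_fg_le_iSup (Submodule.fg_range ψ) (P.stage_mono N) hψ
  exact (P.fill_le_stage N l c ψ τ hc hl).trans (le_iSup (P.stage N) (l + 1))

theorem Alg.small_stage (P : Alg.{v} 𝒞 Q₀) (N : Submodule R P.car) [Small.{u} N] (l : ℕ) :
    Small.{u} (P.stage N l) := by
  induction l with
  | zero => exact inferInstanceAs (Small.{u} N)
  | succ l ih =>
    have h1 : ∀ c, Small.{u} (𝒞.U c →ₗ[R] P.stage N l) := fun c =>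
      small_of_injective (f := fun ψ : 𝒞.U c →ₗ[R] P.stage N l => (ψ : _ → _))
        DFunLike.coe_injective
    have h2 : ∀ (c : 𝒞.C) (f : 𝒞.V c →ₗ[R] P.car), Small.{u} (LinearMap.range f) :=
      fun c f => small_range _
    unfold Alg.stage
    infer_instance

theorem exists_free {q : M →ₗ[R] Q₀} {D : PD 𝒞 M} (hD : Good q D) :
    ∃ (Z : Alg.{u} 𝒞 Q₀) (η : M →ₗ[R] Z.car), IsFree q D Z η := by
  let J := Σ A : Alg.{u} 𝒞 Q₀, {h : M →ₗ[R] A.car // Compat q D A h}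
  let A : J → Alg.{u} 𝒞 Q₀ := fun j => j.1
  let P := Alg.bigProd A
  obtain ⟨η, hη, hηq⟩ := Alg.exists_bigLift A q (fun j => j.2.1) (fun j => j.2.2.base)
  have hηc : Compat q D P η := by
    refine ⟨hηq, fun c σ hσ => ?_⟩
    have hc : P.q ∘ₗ η ∘ₗ σ ∘ₗ 𝒞.u c = (q ∘ₗ σ) ∘ₗ 𝒞.u c := by
      rw [← LinearMap.comp_assoc, hηq, LinearMap.comp_assoc]
    ext x
    refine Alg.bigProd_ext A (fun j => ?_) ?_
    · have h1 := (Alg.isHom_bigProj A j).fill c _ _ hc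
      rw [← LinearMap.comp_assoc _ η, hη j, j.2.2.fill c σ hσ, ← hη j] at h1
      exact congr($h1 x)
    · have h1 := P.fill_q c _ _ hc
      rw [← hηq] at h1
      rw [← hηq]
      exact congr($h1 x)
  have hs0 : Small.{u} (LinearMap.range η) := small_range _
  have hs1 := P.small_stage (LinearMap.range η)
  let Z' : Submodule R P.car := ⨆ l, P.stage (LinearMap.range η) l
  have hs : Small.{u} Z' := inferInstance
  let ι : Shrink.{u} Z' →ₗ[R] P.car := Z'.subtype ∘ₗ (Shrink.linearEquiv R Z').toLinearMap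
  have hι : Function.Injective ι := Z'.injective_subtype.comp (Shrink.linearEquiv R Z').injective
  have hr : LinearMap.range ι = Z' := by
    simp only [ι, LinearMap.range_comp, LinearEquiv.range, Submodule.map_top,
      Submodule.range_subtype]
  obtain ⟨Z, e, hZ⟩ := P.exists_restrict _ ι hι (by rw [hr]; exact P.closed_iSup_stage _)
  set κ := ι ∘ₗ e.toLinearMap with hκ
  have hκi : Function.Injective κ := hι.comp e.injective
  have hκr : LinearMap.range κ = Z' := by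
    rw [hκ, LinearMap.range_comp, LinearEquiv.range, Submodule.map_top, hr]
  have hle : LinearMap.range η ≤ LinearMap.range κ :=
    hκr ▸ le_iSup (P.stage (LinearMap.range η)) 0
  let η' : M →ₗ[R] Z.car := (LinearEquiv.ofInjective κ hκi).symm.toLinearMap ∘ₗ
    η.codRestrict _ (fun x => hle ⟨x, rfl⟩)
  have hη' : κ ∘ₗ η' = η := by
    ext x
    simp [η']
  refine ⟨Z, η', ⟨?_, fun c σ hσ => ?_⟩, ?_, fun B h hh => ?_, fun N hN hcl => ?_⟩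
  · rw [← hZ.q, LinearMap.comp_assoc, hη', hηq]
  · have hc : Z.q ∘ₗ η' ∘ₗ σ ∘ₗ 𝒞.u c = (q ∘ₗ σ) ∘ₗ 𝒞.u c := by
      rw [← LinearMap.comp_assoc, ← hZ.q, LinearMap.comp_assoc _ κ, hη', hηq, LinearMap.comp_assoc]
    have h1 := hZ.fill c _ _ hc
    rw [← LinearMap.comp_assoc _ η', hη', hηc.fill c σ hσ, ← hη'] at h1
    ext x
    exact hκi congr($h1 x)
  · obtain ⟨B, h, hh, hi⟩ := exists_injective_compat hD
    have h1 := hη ⟨B, h, hh⟩
    rw [← hη'] at h1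
    intro x y hxy
    apply hi
    have h2 := congr($h1 x)
    have h3 := congr($h1 y)
    simp only [LinearMap.comp_apply] at h2 h3
    rw [← h2, ← h3, hxy]
  · refine ⟨Alg.bigProj A ⟨B, h, hh⟩ ∘ₗ κ, (Alg.isHom_bigProj A ⟨B, h, hh⟩).comp hZ, ?_⟩
    rw [LinearMap.comp_assoc, hη', hη]
  · have h1 : P.Closed (N.map κ) := by
      intro c ψ τ hc hψ
      have h2 : ∀ x, ψ x ∈ LinearMap.range κ := fun x =>
        LinearMap.map_le_range (hψ ⟨x, rfl⟩)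
      let ψ' : 𝒞.U c →ₗ[R] Z.car := (LinearEquiv.ofInjective κ hκi).symm.toLinearMap ∘ₗ
        ψ.codRestrict _ h2
      have hψ' : κ ∘ₗ ψ' = ψ := by
        ext x
        simp [ψ']
      have hc' : Z.q ∘ₗ ψ' = τ ∘ₗ 𝒞.u c := by
        rw [← hZ.q, LinearMap.comp_assoc, hψ', hc]
      rw [← hψ', ← hZ.fill c ψ' τ hc', LinearMap.range_comp]
      refine Submodule.map_mono (hcl c ψ' τ hc' ?_)
      rintro _ ⟨x, rfl⟩
      obtain ⟨y, hy, hy'⟩ := hψ ⟨x, rfl⟩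
      have : y = ψ' x := hκi (hy'.trans congr($hψ' x).symm)
      exact this ▸ hy
    have h3 : Z' ≤ N.map κ := iSup_le fun l => P.stage_le (by
      rw [← hη', LinearMap.range_comp]
      exact Submodule.map_mono hN) h1 l
    rw [eq_top_iff]
    intro z _
    obtain ⟨y, hy, hy'⟩ := h3 (hκr ▸ ⟨z, rfl⟩ : κ z ∈ Z')
    exact hκi hy' ▸ hy

/-- Recursion principle for free algebras. -/
theorem IsFree.recursion {q : M →ₗ[R] Q₀} {D : PD 𝒞 M} (hD : Good q D) {Z : Alg.{u} 𝒞 Q₀}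
    {η : M →ₗ[R] Z.car} (hZ : IsFree q D Z η) (Q : Type u) [AddCommGroup Q] [Module R Q]
    (φ₀ : M →ₗ[R] Q)
    (ρ : ∀ c, (𝒞.U c →ₗ[R] Z.car) → (𝒞.V c →ₗ[R] Q₀) → (𝒞.U c →ₗ[R] Q) → (𝒞.V c →ₗ[R] Q))
    (hρ : ∀ c ψ τ ψ', Z.q ∘ₗ ψ = τ ∘ₗ 𝒞.u c → ρ c ψ τ ψ' ∘ₗ 𝒞.u c = ψ') :
    ∃ φ : Z.car →ₗ[R] Q, φ ∘ₗ η = φ₀ ∧ ∀ c ψ τ, Z.q ∘ₗ ψ = τ ∘ₗ 𝒞.u c →
      (∃ σ, ⟨c, σ⟩ ∈ D ∧ Z.fill c ψ τ = η ∘ₗ σ) ∨ φ ∘ₗ Z.fill c ψ τ = ρ c ψ τ (φ ∘ₗ ψ) := by
  let A := Z.prodWith Q ρ hρ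
  let h : M →ₗ[R] A.car := LinearMap.prod η φ₀
  have hq : A.q ∘ₗ h = q := hZ.compat.base
  obtain ⟨Φ, hΦ, hΦη⟩ := hZ.univ _ _ (A.adjust_compat hD h hq)
  have hfst : IsHom (A.adjust q D h hq) Z (LinearMap.fst R Z.car Q) := by
    refine ⟨rfl, fun c ψ τ _ => ?_⟩
    rcases A.adjust_fill q D h hq c ψ τ with ⟨σ, hσ, rfl, rfl, h1⟩ | h1
    · rw [h1]
      exact (hZ.compat.fill c σ hσ).symm
    · rw [h1]
      rfl
  have hid : LinearMap.fst R Z.car Q ∘ₗ Φ = LinearMap.id :=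
    hZ.hom_ext (hfst.comp hΦ) (IsHom.id Z) (congrArg (LinearMap.fst R Z.car Q ∘ₗ ·) hΦη)
  refine ⟨LinearMap.snd R Z.car Q ∘ₗ Φ, congrArg (LinearMap.snd R Z.car Q ∘ₗ ·) hΦη,
    fun c ψ τ hc => ?_⟩
  have h2 := hΦ.fill c ψ τ hc
  rcases A.adjust_fill q D h hq c (Φ ∘ₗ ψ) τ with ⟨σ, hσ, -, -, h1⟩ | h1
  · refine Or.inl ⟨σ, hσ, ?_⟩
    have h3 := congrArg (LinearMap.fst R Z.car Q ∘ₗ ·) (h2.trans h1)
    exact (congrArg (· ∘ₗ Z.fill c ψ τ) hid).symm.trans h3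
  · refine Or.inr ?_
    have h3 := congrArg (LinearMap.snd R Z.car Q ∘ₗ ·) (h2.trans h1)
    have h4 : LinearMap.fst R Z.car Q ∘ₗ Φ ∘ₗ ψ = ψ := congrArg (· ∘ₗ ψ) hid
    refine h3.trans ?_
    change ρ c (LinearMap.fst R Z.car Q ∘ₗ Φ ∘ₗ ψ) τ _ = _
    rw [h4]
    rfl

end Pool.Agent.MP_46786a_al

end

section

universe u

namespace Pool.Agent.MP_46786a_al

variable {R : Type u} [Ring R]

/-- Modules in which maps extend along all cells. -/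
def CellFam.Perp (𝒞 : CellFam R) (E : Type u) [AddCommGroup E] [Module R E] : Prop :=
  ∀ c (ψ : 𝒞.U c →ₗ[R] E), ∃ τ : 𝒞.V c →ₗ[R] E, τ ∘ₗ 𝒞.u c = ψ

theorem CellFam.perp_of_injective (𝒞 : CellFam R) (E : Type u) [AddCommGroup E] [Module R E]
    [hE : Module.Injective R E] : 𝒞.Perp E := fun c ψ => by
  obtain ⟨τ, hτ⟩ := hE.out (𝒞.u c) (𝒞.inj c) ψ
  exact ⟨τ, LinearMap.ext hτ⟩

/-- A cell structure on a module. -/
structure CellCx (𝒞 : CellFam R) (X : Type u) [AddCommGroup X] [Module R X] where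
  Λ : Type u
  c : Λ → 𝒞.C
  γ : ∀ s, 𝒞.V (c s) →ₗ[R] X
  lev : Λ → ℕ
  r : Λ → Finset Λ
  r_lev : ∀ s t, t ∈ r s → lev t < lev s
  att : ∀ s, LinearMap.range (γ s ∘ₗ 𝒞.u (c s)) ≤ ⨆ t ∈ r s, LinearMap.range (γ t)
  top : ⨆ s, LinearMap.range (γ s) = ⊤
  recur : ∀ (Q : Type u) [AddCommGroup Q] [Module R Q]
    (ρ : ∀ s, (𝒞.U (c s) →ₗ[R] Q) → (𝒞.V (c s) →ₗ[R] Q)),
    (∀ s ψ', ρ s ψ' ∘ₗ 𝒞.u (c s) = ψ') →
    ∃ φ : X →ₗ[R] Q, ∀ s, φ ∘ₗ γ s = ρ s (φ ∘ₗ γ s ∘ₗ 𝒞.u (c s))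

theorem exists_finset_of_fg_le_biSup {P : Type u} [AddCommGroup P] [Module R P]
    {L : Submodule R P} (hL : L.FG) {Λ : Type u} {I : Set Λ} {N : Λ → Submodule R P}
    (h : L ≤ ⨆ s ∈ I, N s) : ∃ G : Finset Λ, (G : Set Λ) ⊆ I ∧ L ≤ ⨆ s ∈ G, N s := by
  classical
  rw [iSup_subtype'] at h
  obtain ⟨G, hG⟩ := CompleteLattice.IsCompactElement.exists_finset_of_le_iSup _
    ((Submodule.fg_iff_compact L).1 hL) _ h
  refine ⟨G.image Subtype.val, ?_, hG.trans (iSup₂_le fun s hs => ?_)⟩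
  · intro s hs
    obtain ⟨t, -, rfl⟩ := Finset.mem_image.1 hs
    exact t.2
  · exact le_iSup₂_of_le s.1 (Finset.mem_image_of_mem _ hs) le_rfl

theorem exists_cellCx (𝒞 : CellFam R) (K : Type u) [AddCommGroup K] [Module R K] :
    ∃ (X : ModuleCat.{u} R) (_ : CellCx 𝒞 X) (p : X →ₗ[R] K),
      ∀ c (ψ : 𝒞.U c →ₗ[R] X) (τ : 𝒞.V c →ₗ[R] K), p ∘ₗ ψ = τ ∘ₗ 𝒞.u c →
        ∃ σ : 𝒞.V c →ₗ[R] X, σ ∘ₗ 𝒞.u c = ψ ∧ p ∘ₗ σ = τ := by
  classical
  have hD : Good (0 : PUnit.{u + 1} →ₗ[R] K) (∅ : PD 𝒞 PUnit.{u + 1}) :=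
    fun _ _ _ h => h.elim
  obtain ⟨Z, η, hZ⟩ := exists_free hD
  have htop : ⨆ l, Z.stage ⊥ l = ⊤ := hZ.gen _ (by
    rintro _ ⟨x, rfl⟩
    rw [Subsingleton.elim x 0, map_zero]
    exact zero_mem _) (Z.closed_iSup_stage _)
  let Λ := {s : Σ c : 𝒞.C, (𝒞.U c →ₗ[R] Z.car) × (𝒞.V c →ₗ[R] K) //
    Z.q ∘ₗ s.2.1 = s.2.2 ∘ₗ 𝒞.u s.1}
  have hex : ∀ s : Λ, ∃ l, LinearMap.range s.1.2.1 ≤ Z.stage ⊥ l := fun s =>
    exists_le_of_fg_le_iSup (Submodule.fg_range _) (Z.stage_mono _) (htop ▸ le_top)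
  let lev : Λ → ℕ := fun s => Nat.find (hex s)
  let γ : ∀ s : Λ, 𝒞.V s.1.1 →ₗ[R] Z.car := fun s => Z.fill s.1.1 s.1.2.1 s.1.2.2
  have hst : ∀ l, Z.stage ⊥ l ≤ ⨆ t ∈ {t | lev t < l}, LinearMap.range (γ t) := by
    intro l
    induction l with
    | zero => exact bot_le
    | succ l ih =>
      refine sup_le (ih.trans (iSup₂_le fun t ht => le_iSup₂_of_le t
        (Nat.lt_succ_of_lt ht) le_rfl)) (iSup_le fun s => ?_)
      refine le_iSup₂_of_le (f := fun t (_ : t ∈ {t | lev t < l + 1}) => LinearMap.range (γ t))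
        ⟨⟨s.1.1, (Z.stage ⊥ l).subtype ∘ₗ s.1.2.1, s.1.2.2⟩, s.2⟩ ?_ le_rfl
      refine Nat.lt_succ_of_le (Nat.find_min' _ ?_)
      rintro _ ⟨x, rfl⟩
      exact (s.1.2.1 x).2
  choose r hr hr' using fun s : Λ => exists_finset_of_fg_le_biSup (Submodule.fg_range s.1.2.1)
    ((Nat.find_spec (hex s)).trans (hst _))
  refine ⟨Z.car, ⟨Λ, fun s => s.1.1, γ, lev, r, fun s t ht => hr s ht, fun s => ?_, ?_, ?_⟩,
    Z.q, fun c ψ τ hc => ⟨_, Z.fill_u c ψ τ hc, Z.fill_q c ψ τ hc⟩⟩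
  · rw [show γ s ∘ₗ 𝒞.u s.1.1 = s.1.2.1 from Z.fill_u _ _ _ s.2]
    exact hr' s
  · rw [eq_top_iff, ← htop]
    exact iSup_le fun l => (hst l).trans (iSup₂_le fun t _ => le_iSup_of_le t le_rfl)
  · intro Q _ _ ρ hρ
    obtain ⟨φ, -, hφ⟩ := hZ.recursion hD Q 0
      (fun c ψ τ ψ' => if h : Z.q ∘ₗ ψ = τ ∘ₗ 𝒞.u c then ρ ⟨⟨c, ψ, τ⟩, h⟩ ψ' else 0)
      (fun c ψ τ ψ' h => by rw [dif_pos h]; exact hρ ⟨⟨c, ψ, τ⟩, h⟩ ψ')
    refine ⟨φ, fun s => ?_⟩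
    rcases hφ _ _ _ s.2 with ⟨σ, hσ, -⟩ | h
    · exact hσ.elim
    · rw [show γ s ∘ₗ 𝒞.u s.1.1 = s.1.2.1 from Z.fill_u _ _ _ s.2]
      exact h.trans (dif_pos s.2)

namespace CellCx

variable {𝒞 : CellFam R} {X : Type u} [AddCommGroup X] [Module R X] (𝒳 : CellCx 𝒞 X)

/-- The submodule spanned by a set of cells. -/
def sub (I : Set 𝒳.Λ) : Submodule R X := ⨆ s ∈ I, LinearMap.range (𝒳.γ s)

/-- Sets of cells closed under dependence. -/
def RC (I : Set 𝒳.Λ) : Prop := ∀ s ∈ I, ∀ t ∈ 𝒳.r s, t ∈ I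

variable {𝒳}

theorem range_le_sub {I : Set 𝒳.Λ} {s : 𝒳.Λ} (hs : s ∈ I) :
    LinearMap.range (𝒳.γ s) ≤ 𝒳.sub I :=
  le_iSup₂_of_le (f := fun s (_ : s ∈ I) => LinearMap.range (𝒳.γ s)) s hs le_rfl

theorem sub_le {I : Set 𝒳.Λ} {N : Submodule R X}
    (h : ∀ s ∈ I, LinearMap.range (𝒳.γ s) ≤ N) : 𝒳.sub I ≤ N := iSup₂_le h

theorem sub_mono {I J : Set 𝒳.Λ} (h : I ⊆ J) : 𝒳.sub I ≤ 𝒳.sub J :=
  sub_le fun _ hs => range_le_sub (h hs)

theorem sub_univ : 𝒳.sub Set.univ = ⊤ := by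
  rw [eq_top_iff, ← 𝒳.top]
  exact iSup_le fun s => range_le_sub (Set.mem_univ s)

theorem att_le (s : 𝒳.Λ) {N : Submodule R X}
    (h : ∀ t ∈ 𝒳.r s, LinearMap.range (𝒳.γ t) ≤ N) :
    LinearMap.range (𝒳.γ s ∘ₗ 𝒞.u (𝒳.c s)) ≤ N :=
  (𝒳.att s).trans (iSup₂_le h)

theorem ind {P : 𝒳.Λ → Prop} (h : ∀ s, (∀ t ∈ 𝒳.r s, P t) → P s) (s : 𝒳.Λ) : P s := by
  induction hl : 𝒳.lev s using Nat.strong_induction_on generalizing s with
  | _ l ih => exact h s fun t ht => ih _ (hl ▸ 𝒳.r_lev s t ht) t rfl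

theorem eq_on_att {Q : Type u} [AddCommGroup Q] [Module R Q] {φ φ' : X →ₗ[R] Q} (s : 𝒳.Λ)
    (h : ∀ t ∈ 𝒳.r s, φ ∘ₗ 𝒳.γ t = φ' ∘ₗ 𝒳.γ t) :
    φ ∘ₗ 𝒳.γ s ∘ₗ 𝒞.u (𝒳.c s) = φ' ∘ₗ 𝒳.γ s ∘ₗ 𝒞.u (𝒳.c s) := by
  have : LinearMap.range (𝒳.γ s ∘ₗ 𝒞.u (𝒳.c s)) ≤ LinearMap.eqLocus φ φ' := att_le s (by
    rintro t ht _ ⟨x, rfl⟩
    exact congr($(h t ht) x))
  exact LinearMap.ext fun x => this ⟨x, rfl⟩

theorem eq_on_sub {Q : Type u} [AddCommGroup Q] [Module R Q] {φ φ' : X →ₗ[R] Q} {I : Set 𝒳.Λ}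
    (h : ∀ t ∈ I, φ ∘ₗ 𝒳.γ t = φ' ∘ₗ 𝒳.γ t) {x : X} (hx : x ∈ 𝒳.sub I) : φ x = φ' x := by
  have : 𝒳.sub I ≤ LinearMap.eqLocus φ φ' := sub_le (by
    rintro t ht _ ⟨x, rfl⟩
    exact congr($(h t ht) x))
  exact this hx

theorem hom_ext {Q : Type u} [AddCommGroup Q] [Module R Q] {φ φ' : X →ₗ[R] Q}
    (h : ∀ t, φ ∘ₗ 𝒳.γ t = φ' ∘ₗ 𝒳.γ t) : φ = φ' :=
  LinearMap.ext fun _ => eq_on_sub (I := Set.univ) (fun t _ => h t) (by simp [sub_univ])

theorem exists_closed (G : Finset 𝒳.Λ) : ∃ G' : Finset 𝒳.Λ, G ⊆ G' ∧ 𝒳.RC G' := by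
  classical
  have h1 : ∀ s, ∃ G' : Finset 𝒳.Λ, s ∈ G' ∧ 𝒳.RC G' := by
    refine ind fun s hs => ?_
    choose! F hF hF' using hs
    refine ⟨insert s ((𝒳.r s).biUnion F), Finset.mem_insert_self _ _, fun t ht t' ht' => ?_⟩
    simp only [Finset.coe_insert, Finset.coe_biUnion, Set.mem_insert_iff, Set.mem_iUnion,
      Finset.mem_coe] at ht ⊢
    rcases ht with rfl | ⟨a, ha, ht⟩
    · exact Or.inr ⟨t', ht', hF t' ht'⟩
    · exact Or.inr ⟨a, ha, hF' a ha t ht t' ht'⟩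
  choose F hF hF' using h1
  refine ⟨G.biUnion F, fun s hs => Finset.mem_biUnion.2 ⟨s, hs, hF s⟩, fun t ht t' ht' => ?_⟩
  simp only [Finset.coe_biUnion, Set.mem_iUnion, Finset.mem_coe] at ht ⊢
  obtain ⟨a, ha, ht⟩ := ht
  exact ⟨a, ha, hF' a t ht t' ht'⟩

theorem exists_closed_of_fg {L : Submodule R X} (hL : L.FG) :
    ∃ G : Finset 𝒳.Λ, 𝒳.RC G ∧ L ≤ 𝒳.sub G := by
  obtain ⟨G, -, hG⟩ := exists_finset_of_fg_le_biSup hL (I := Set.univ)
    (N := fun s => LinearMap.range (𝒳.γ s)) (le_top.trans (sub_univ (𝒳 := 𝒳)).ge)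
  obtain ⟨G', h1, h2⟩ := exists_closed G
  exact ⟨G', h2, hG.trans (sub_mono (I := (G : Set 𝒳.Λ)) h1)⟩

theorem prescribe {Q : Type u} [AddCommGroup Q] [Module R Q] (hQ : 𝒞.Perp Q)
    (τ₀ : ∀ t, 𝒞.V (𝒳.c t) →ₗ[R] Q) (h₀ : ∀ t, τ₀ t ∘ₗ 𝒞.u (𝒳.c t) = 0) :
    ∃ φ : X →ₗ[R] Q, ∀ t, φ ∘ₗ 𝒳.γ t ∘ₗ 𝒞.u (𝒳.c t) = 0 → φ ∘ₗ 𝒳.γ t = τ₀ t := by
  classical
  choose ρ hρ using hQ
  obtain ⟨φ, hφ⟩ := 𝒳.recur Q (fun t ψ' => if ψ' = 0 then τ₀ t else ρ _ ψ') (fun t ψ' => by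
    split_ifs with h
    · rw [h₀, h]
    · exact hρ _ _)
  exact ⟨φ, fun t ht => (hφ t).trans (if_pos ht)⟩

instance (c : 𝒞.C) : Module.FinitePresentation R (𝒞.V c ⧸ LinearMap.range (𝒞.u c)) :=
  Module.finitePresentation_of_surjective (LinearMap.range (𝒞.u c)).mkQ
    (LinearMap.range (𝒞.u c)).mkQ_surjective
    (by rw [Submodule.ker_mkQ]; exact Submodule.fg_range _)

theorem finitePresentation_sub (G : Finset 𝒳.Λ) :
    𝒳.RC G → Module.FinitePresentation R (𝒳.sub G) := by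
  classical
  induction G using Finset.induction_on_max_value 𝒳.lev with
  | empty =>
    intro _
    have : 𝒳.sub ((∅ : Finset 𝒳.Λ) : Set 𝒳.Λ) = ⊥ := by simp [sub]
    rw [this]
    infer_instance
  | insert a G ha hmax ih =>
    intro hcl
    have hr : ∀ t ∈ insert a G, ∀ t' ∈ 𝒳.r t, t' ∈ G := by
      intro t ht t' ht'
      have h1 := hcl t (by simpa using ht) t' ht'
      have h2 := 𝒳.r_lev t t' ht'
      have h3 : 𝒳.lev t ≤ 𝒳.lev a := by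
        rcases Finset.mem_insert.1 ht with rfl | ht
        · exact le_rfl
        · exact hmax t ht
      rcases (by simpa using h1 : t' = a ∨ t' ∈ G) with rfl | h4
      · omega
      · exact h4
    have ih' := ih fun t ht t' ht' => hr t (Finset.mem_insert_of_mem ht) t' ht'
    obtain ⟨I, hI, f, hf⟩ :=
      exists_injective_embedding R (𝒞.V (𝒳.c a) ⧸ LinearMap.range (𝒞.u (𝒳.c a)))
    obtain ⟨κ, hκ⟩ := prescribe (𝒳 := 𝒳) (𝒞.perp_of_injective I)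
      (Pi.single (M := fun t => 𝒞.V (𝒳.c t) →ₗ[R] I) a (f ∘ₗ Submodule.mkQ _)) (fun t => by
        by_cases h : t = a
        · subst h
          rw [Pi.single_eq_same]
          ext x
          have : (Submodule.Quotient.mk (𝒞.u _ x) : _ ⧸ LinearMap.range (𝒞.u (𝒳.c t))) = 0 :=
            (Submodule.Quotient.mk_eq_zero _).2 ⟨x, rfl⟩
          simp [this]
        · rw [Pi.single_eq_of_ne h, LinearMap.zero_comp])
    have hG : ∀ t, t ∈ G → κ ∘ₗ 𝒳.γ t = (0 : X →ₗ[R] I) ∘ₗ 𝒳.γ t := by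
      refine ind fun t iht ht => ?_
      rw [hκ t (eq_on_att (φ' := 0) t fun t' ht' =>
        iht t' ht' (hr t (Finset.mem_insert_of_mem ht) t' ht')),
        Pi.single_eq_of_ne (fun h : t = a => ha (h ▸ ht)), LinearMap.zero_comp]
    have hA : κ ∘ₗ 𝒳.γ a = f ∘ₗ Submodule.mkQ _ := by
      rw [hκ a (eq_on_att (φ' := 0) a fun t' ht' =>
        hG t' (hr a (Finset.mem_insert_self _ _) t' ht')), Pi.single_eq_same]
    have hsub : 𝒳.sub (insert a G : Finset 𝒳.Λ) = LinearMap.range (𝒳.γ a) ⊔ 𝒳.sub G := by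
      simp only [sub, Finset.coe_insert]
      exact iSup_insert
    have hle : 𝒳.sub G ≤ 𝒳.sub (insert a G : Finset 𝒳.Λ) := hsub ▸ le_sup_right
    let l := κ ∘ₗ (𝒳.sub (insert a G : Finset 𝒳.Λ)).subtype
    have hdec : ∀ x ∈ 𝒳.sub (insert a G : Finset 𝒳.Λ), ∃ v, ∃ y ∈ 𝒳.sub G,
        x = 𝒳.γ a v + y ∧ κ x = f (Submodule.Quotient.mk v) := by
      intro x hx
      rw [hsub, Submodule.mem_sup] at hx
      obtain ⟨_, ⟨v, rfl⟩, y, hy, rfl⟩ := hx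
      refine ⟨v, y, hy, rfl, ?_⟩
      rw [map_add, eq_on_sub (φ' := 0) hG hy, LinearMap.zero_apply, add_zero]
      exact congr($hA v)
    have hrange : LinearMap.range l = LinearMap.range f := by
      apply le_antisymm
      · rintro _ ⟨x, rfl⟩
        obtain ⟨v, y, -, -, h⟩ := hdec x.1 x.2
        exact ⟨_, h.symm⟩
      · rintro _ ⟨w, rfl⟩
        obtain ⟨v, rfl⟩ := Submodule.Quotient.mk_surjective _ w
        exact ⟨⟨𝒳.γ a v, range_le_sub (by simp) ⟨v, rfl⟩⟩, congr($hA v)⟩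
    have hker : LinearMap.ker l.rangeRestrict =
        (𝒳.sub G).comap (𝒳.sub (insert a G : Finset 𝒳.Λ)).subtype := by
      rw [LinearMap.ker_rangeRestrict]
      ext x
      constructor
      · intro hx
        obtain ⟨v, y, hy, h1, h2⟩ := hdec x.1 x.2
        have h3 : f (Submodule.Quotient.mk v) = 0 := h2.symm.trans hx
        rw [map_eq_zero_iff f hf, Submodule.Quotient.mk_eq_zero] at h3
        obtain ⟨w, rfl⟩ := h3
        change x.1 ∈ 𝒳.sub G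
        rw [h1]
        refine add_mem (att_le a (fun t ht => range_le_sub ?_) ⟨w, rfl⟩) hy
        exact hr a (Finset.mem_insert_self _ _) t ht
      · intro hx
        exact eq_on_sub (φ' := 0) hG hx
    have h1 : Module.FinitePresentation R (LinearMap.range l) := by
      rw [hrange]
      exact Module.FinitePresentation.of_equiv (LinearEquiv.ofInjective f hf)
    have h2 : Module.FinitePresentation R (LinearMap.ker l.rangeRestrict) := by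
      rw [hker]
      exact Module.FinitePresentation.of_equiv (Submodule.comapSubtypeEquivOfLe hle).symm
    exact Module.finitePresentation_of_ker l.rangeRestrict l.surjective_rangeRestrict

end CellCx

theorem lift_along {U V E I C : Type u} [AddCommGroup U] [Module R U] [AddCommGroup V] [Module R V]
    [AddCommGroup E] [Module R E] [AddCommGroup I] [Module R I] [AddCommGroup C] [Module R C]
    [hI : Module.Injective R I] {u : U →ₗ[R] V} (hu : Function.Injective u)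
    {f : E →ₗ[R] I} {p : I →ₗ[R] C} (hs : SE f p) (hA : EZ R (V ⧸ LinearMap.range u) E 1)
    (ψ : U →ₗ[R] I) (χ : V →ₗ[R] C) (h : p ∘ₗ ψ = χ ∘ₗ u) :
    ∃ τ : V →ₗ[R] I, τ ∘ₗ u = ψ ∧ p ∘ₗ τ = χ := by
  obtain ⟨τ₀, hτ₀⟩ := hI.out u hu ψ
  obtain ⟨l, hl⟩ := hs.lift hA ((LinearMap.range u).liftQ (χ - p ∘ₗ τ₀) (by
    rintro _ ⟨x, rfl⟩
    have := congr($h x)
    simp only [LinearMap.comp_apply] at this
    simp [hτ₀, this]))
  refine ⟨τ₀ + l ∘ₗ (LinearMap.range u).mkQ, ?_, ?_⟩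
  · ext x
    have : (Submodule.Quotient.mk (u x) : V ⧸ LinearMap.range u) = 0 :=
      (Submodule.Quotient.mk_eq_zero _).2 ⟨x, rfl⟩
    simp [hτ₀, this]
  · ext x
    have := congr($hl (Submodule.Quotient.mk x))
    simp only [LinearMap.comp_apply, Submodule.liftQ_apply] at this
    simp [this]

theorem CellCx.ez_quot {𝒞 : CellFam R} {X : Type u} [AddCommGroup X] [Module R X]
    (𝒳 : CellCx 𝒞 X) {G : Set 𝒳.Λ} (hG : 𝒳.RC G) {E : Type u} [AddCommGroup E] [Module R E]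
    (hE : ∀ c, EZ R (𝒞.V c ⧸ LinearMap.range (𝒞.u c)) E 1) : EZ R (X ⧸ 𝒳.sub G) E 1 := by
  obtain ⟨I, hI, f, hf⟩ := exists_injective_embedding R E
  have hs := SE.coker f hf
  refine hs.of_lift (fun φ₁ => ?_) (EZ.of_injective _)
  let p := (LinearMap.range f).mkQ
  let χ := φ₁ ∘ₗ (𝒳.sub G).mkQ
  have key : ∀ s (ψ' : 𝒞.U (𝒳.c s) →ₗ[R] I), ∃ τ : 𝒞.V (𝒳.c s) →ₗ[R] I,
      τ ∘ₗ 𝒞.u (𝒳.c s) = ψ' ∧ (s ∈ G → ψ' = 0 → τ = 0) ∧
      (p ∘ₗ ψ' = χ ∘ₗ 𝒳.γ s ∘ₗ 𝒞.u (𝒳.c s) → p ∘ₗ τ = χ ∘ₗ 𝒳.γ s) := by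
    intro s ψ'
    by_cases h1 : s ∈ G ∧ ψ' = 0
    · refine ⟨0, by simp [h1.2], fun _ _ => rfl, fun _ => ?_⟩
      ext x
      have : (Submodule.Quotient.mk (𝒳.γ s x) : X ⧸ 𝒳.sub G) = 0 :=
        (Submodule.Quotient.mk_eq_zero _).2 (CellCx.range_le_sub h1.1 ⟨x, rfl⟩)
      simp [χ, this]
    · by_cases h2 : p ∘ₗ ψ' = χ ∘ₗ 𝒳.γ s ∘ₗ 𝒞.u (𝒳.c s)
      · obtain ⟨τ, hτ, hτ'⟩ := lift_along (𝒞.inj _) hs (hE _) ψ' (χ ∘ₗ 𝒳.γ s) h2
        exact ⟨τ, hτ, fun a b => (h1 ⟨a, b⟩).elim, fun _ => hτ'⟩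
      · obtain ⟨τ, hτ⟩ := 𝒞.perp_of_injective I _ ψ'
        exact ⟨τ, hτ, fun a b => (h1 ⟨a, b⟩).elim, fun h => (h2 h).elim⟩
  choose ρ hρ h0 hp using key
  obtain ⟨φ, hφ⟩ := 𝒳.recur I ρ hρ
  have c1 : ∀ s, s ∈ G → φ ∘ₗ 𝒳.γ s = (0 : X →ₗ[R] I) ∘ₗ 𝒳.γ s := by
    refine CellCx.ind fun s ih hs => ?_
    rw [hφ s, h0 s _ hs (CellCx.eq_on_att (φ' := 0) s fun t ht => ih t ht (hG s hs t ht)),
      LinearMap.zero_comp]
  have c2 : ∀ s, (p ∘ₗ φ) ∘ₗ 𝒳.γ s = χ ∘ₗ 𝒳.γ s := by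
    refine CellCx.ind fun s ih => ?_
    rw [LinearMap.comp_assoc, hφ s]
    exact hp s _ (CellCx.eq_on_att s ih)
  refine ⟨(𝒳.sub G).liftQ φ (fun x hx => CellCx.eq_on_sub (φ' := 0) c1 hx), ?_⟩
  ext x
  exact congr($(CellCx.hom_ext c2) x)

end Pool.Agent.MP_46786a_al

end

section

universe u

namespace Pool.Agent.MP_46786a_al

theorem exists_limit {Λ J M : Type u} [Inhabited M] (supp : J → Finset Λ) {ι : Type*}
    (I : ι → Set Λ) (y : ι → J → M)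
    (h : ∀ a b, ∃ c, (∀ j, ↑(supp j) ⊆ I a → y c j = y a j) ∧
      (∀ j, ↑(supp j) ⊆ I b → y c j = y b j)) :
    ∃ z : J → M, ∀ a j, ↑(supp j) ⊆ I a → z j = y a j := by
  classical
  refine ⟨fun j => if h : ∃ a, ↑(supp j) ⊆ I a then y h.choose j else default, fun a j hj => ?_⟩
  have h1 : ∃ a, ↑(supp j) ⊆ I a := ⟨a, hj⟩
  obtain ⟨c, h2, h3⟩ := h a h1.choose
  simp only [dif_pos h1]
  rw [← h3 j h1.choose_spec, h2 j hj]

theorem solve {Λ J M : Type u} [Inhabited M]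
    (Sat : Λ → (J → M) → Prop) (var : Λ → Finset J) (supp : J → Finset Λ) (nxt : Λ → Finset Λ)
    (hSat : ∀ s y y', (∀ j ∈ var s, y' j = y j) → Sat s y → Sat s y')
    (hnxt : ∀ s, ∀ j ∈ var s, supp j ⊆ nxt s)
    (RC : Finset Λ → Prop) (hRC0 : RC ∅) (hfin : ∀ G : Finset Λ, ∃ G', G ⊆ G' ∧ RC G')
    (hstep : ∀ I : Set Λ, (∀ s ∈ I, ↑(nxt s) ⊆ I) → ∀ G G' : Finset Λ, RC G → RC G' → G ⊆ G' →
      ∀ y, (∀ s ∈ I ∪ G, Sat s y) →
        ∃ y', (∀ s ∈ I ∪ G', Sat s y') ∧ ∀ j, ↑(supp j) ⊆ I ∪ G → y' j = y j) :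
    ∃ y, ∀ s, Sat s y := by
  classical
  let P := {p : Set Λ × (J → M) // (∀ s ∈ p.1, ↑(nxt s) ⊆ p.1) ∧ ∀ s ∈ p.1, Sat s p.2}
  let r : P → P → Prop := fun p q => p.1.1 ⊆ q.1.1 ∧ ∀ j, ↑(supp j) ⊆ p.1.1 → q.1.2 j = p.1.2 j
  have hchain : ∀ c, IsChain r c → ∃ ub, ∀ a ∈ c, r a ub := by
    intro c hc
    obtain ⟨z, hz⟩ := exists_limit supp (fun a : c => a.1.1.1) (fun a : c => a.1.1.2) (by
      intro a b
      by_cases hab : a.1 = b.1
      · exact ⟨a, fun _ _ => rfl, fun _ _ => by rw [hab]⟩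
      · rcases hc a.2 b.2 hab with h | h
        · exact ⟨b, h.2, fun _ _ => rfl⟩
        · exact ⟨a, fun _ _ => rfl, h.2⟩)
    refine ⟨⟨⟨⋃ a : c, a.1.1.1, z⟩, fun s hs => ?_, fun s hs => ?_⟩, fun a ha =>
      ⟨Set.subset_iUnion (fun a : c => a.1.1.1) ⟨a, ha⟩, hz ⟨a, ha⟩⟩⟩
    · obtain ⟨a, ha⟩ := Set.mem_iUnion.1 hs
      exact (a.1.2.1 s ha).trans (Set.subset_iUnion (fun a : c => a.1.1.1) a)
    · obtain ⟨a, ha⟩ := Set.mem_iUnion.1 hs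
      exact hSat s _ _ (fun j hj => hz a j
        ((Finset.coe_subset.2 (hnxt s j hj)).trans (a.1.2.1 s ha))) (a.1.2.2 s ha)
  obtain ⟨⟨⟨I, y⟩, hI, hy⟩, hm⟩ := exists_maximal_of_chains_bounded hchain
    (fun {a b c} hab hbc => ⟨hab.1.trans hbc.1, fun j hj =>
      (hbc.2 j (hj.trans hab.1)).trans (hab.2 j hj)⟩)
  refine ⟨y, fun s₀ => ?_⟩
  let St := {p : Finset Λ × (J → M) // RC p.1 ∧ ∀ s ∈ I ∪ p.1, Sat s p.2}
  have hnext : ∀ p : St, ∃ q : St, p.1.1 ⊆ q.1.1 ∧ s₀ ∈ q.1.1 ∧ (∀ s ∈ p.1.1, nxt s ⊆ q.1.1) ∧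
      ∀ j, ↑(supp j) ⊆ I ∪ p.1.1 → q.1.2 j = p.1.2 j := by
    rintro ⟨⟨G, z⟩, hG, hz⟩
    obtain ⟨G', h1, h2⟩ := hfin (insert s₀ (G ∪ G.biUnion nxt))
    have h3 : G ⊆ G' := (Finset.subset_union_left.trans (Finset.subset_insert _ _)).trans h1
    obtain ⟨z', h4, h5⟩ := hstep I hI G G' hG h2 h3 z hz
    refine ⟨⟨⟨G', z'⟩, h2, h4⟩, h3, h1 (Finset.mem_insert_self _ _), fun s hs => ?_, h5⟩
    exact ((Finset.subset_biUnion_of_mem nxt hs).trans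
      (Finset.subset_union_right.trans (Finset.subset_insert _ _))).trans h1
  choose next h1 h2 h3 h4 using hnext
  let p₀ : St := ⟨⟨∅, y⟩, hRC0, by simpa using hy⟩
  let seq : ℕ → St := fun m => next^[m] p₀
  have hs : ∀ m, seq (m + 1) = next (seq m) := fun m => Function.iterate_succ_apply' _ _ _
  have hmono : ∀ a b, a ≤ b → (seq a).1.1 ⊆ (seq b).1.1 ∧
      ∀ j, ↑(supp j) ⊆ I ∪ (seq a).1.1 → (seq b).1.2 j = (seq a).1.2 j := by
    intro a b hab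
    induction hab with
    | refl => exact ⟨subset_rfl, fun _ _ => rfl⟩
    | step _ ih =>
      rw [hs]
      exact ⟨ih.1.trans (h1 _), fun j hj => (h4 _ j (hj.trans
        (Set.union_subset_union_right _ (Finset.coe_subset.2 ih.1)))).trans (ih.2 j hj)⟩
  obtain ⟨z, hz⟩ := exists_limit supp (fun m => I ∪ (seq m).1.1) (fun m => (seq m).1.2)
    (fun a b => ⟨max a b, (hmono _ _ (le_max_left _ _)).2, (hmono _ _ (le_max_right _ _)).2⟩)
  have hn : ∀ m, ∀ s ∈ I ∪ (seq m).1.1, ↑(nxt s) ⊆ I ∪ (seq (m + 1)).1.1 := by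
    rintro m s (hs' | hs')
    · exact (hI s hs').trans Set.subset_union_left
    · rw [hs]
      exact (Finset.coe_subset.2 (h3 _ s hs')).trans Set.subset_union_right
  let q : P := ⟨⟨⋃ m, I ∪ (seq m).1.1, z⟩, fun s hs' => by
      obtain ⟨m, hm⟩ := Set.mem_iUnion.1 hs'
      exact (hn m s hm).trans (Set.subset_iUnion (fun m => I ∪ (seq m).1.1) (m + 1)),
    fun s hs' => by
      obtain ⟨m, hm⟩ := Set.mem_iUnion.1 hs'
      exact hSat s _ _ (fun j hj => hz (m + 1) j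
        ((Finset.coe_subset.2 (hnxt s j hj)).trans (hn m s hm))) ((seq (m + 1)).2.2 s
          (Set.union_subset_union_right _ (Finset.coe_subset.2 (hmono m _ (Nat.le_succ m)).1) hm))⟩
  have hq := hm q ⟨Set.subset_union_left.trans (Set.subset_iUnion (fun m => I ∪ (seq m).1.1) 0),
    fun j hj => hz 0 j (hj.trans Set.subset_union_left)⟩
  refine hy s₀ (hq.1 (Set.mem_iUnion.2 ⟨1, Or.inr ?_⟩))
  rw [hs]
  exact h2 _

end Pool.Agent.MP_46786a_al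

end

section

universe u

namespace Pool.Agent.MP_46786a_al

variable {R : Type u} [Ring R] {𝒞 : CellFam R}

theorem exists_support_dfinsupp {V : Type u} [AddCommGroup V] [Module R V] [Module.Finite R V]
    {ι : Type u} {M : ι → Type u} [∀ a, AddCommGroup (M a)] [∀ a, Module R (M a)]
    (f : V →ₗ[R] Π₀ a, M a) : ∃ S : Finset ι, ∀ a ∉ S, ∀ v, f v a = 0 := by
  classical
  obtain ⟨s, hs⟩ := Module.Finite.fg_top (R := R) (M := V)
  refine ⟨s.biUnion fun v => (f v).support, fun a ha v => ?_⟩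
  have : Submodule.span R (s : Set V) ≤ LinearMap.ker (DFinsupp.lapply a ∘ₗ f) := by
    rw [Submodule.span_le]
    intro w hw
    by_contra h
    exact ha (Finset.mem_biUnion.2 ⟨w, hw, DFinsupp.mem_support_iff.2 h⟩)
  exact this (hs ▸ Submodule.mem_top)

theorem exists_support_finsupp {V : Type u} [AddCommGroup V] [Module R V] [Module.Finite R V]
    {J : Type u} (f : V →ₗ[R] J →₀ R) : ∃ S : Finset J, ∀ v, (f v).support ⊆ S := by
  classical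
  obtain ⟨s, hs⟩ := Module.Finite.fg_top (R := R) (M := V)
  refine ⟨s.biUnion fun v => (f v).support, fun v a ha => ?_⟩
  by_contra ha'
  have : Submodule.span R (s : Set V) ≤ LinearMap.ker (Finsupp.lapply a ∘ₗ f) := by
    rw [Submodule.span_le]
    intro w hw
    by_contra h
    exact ha' (Finset.mem_biUnion.2 ⟨w, hw, Finsupp.mem_support_iff.2 h⟩)
  exact Finsupp.mem_support_iff.1 ha (this (hs ▸ Submodule.mem_top))

theorem CellFam.perp_dfinsupp_ext {ι : Type u} {M : ι → Type u} [∀ a, AddCommGroup (M a)]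
    [∀ a, Module R (M a)] (h : ∀ a, 𝒞.Perp (M a)) (c : 𝒞.C) (ψ : 𝒞.U c →ₗ[R] Π₀ a, M a) :
    ∃ τ : 𝒞.V c →ₗ[R] Π₀ a, M a, τ ∘ₗ 𝒞.u c = ψ ∧
      ∀ a, (∀ x, ψ x a = 0) → ∀ v, τ v a = 0 := by
  classical
  obtain ⟨S, hS⟩ := exists_support_dfinsupp ψ
  have key : ∀ a, ∃ τ : 𝒞.V c →ₗ[R] M a, τ ∘ₗ 𝒞.u c = DFinsupp.lapply a ∘ₗ ψ ∧
      ((∀ x, ψ x a = 0) → τ = 0) := by
    intro a
    by_cases ha : ∀ x, ψ x a = 0
    · exact ⟨0, LinearMap.ext fun x => (ha x).symm, fun _ => rfl⟩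
    · obtain ⟨τ, hτ⟩ := h a c (DFinsupp.lapply a ∘ₗ ψ)
      exact ⟨τ, hτ, fun h' => (ha h').elim⟩
  choose τ hτ hτ' using key
  have hval : ∀ v a, (∑ b ∈ S, DFinsupp.lsingle b ∘ₗ τ b : 𝒞.V c →ₗ[R] Π₀ a, M a) v a =
      τ a v := by
    intro v a
    rw [LinearMap.sum_apply, DFinsupp.finsetSum_apply, Finset.sum_eq_single a]
    · simp
    · intro b _ hb
      simp [hb]
    · intro ha
      simp [hτ' a (hS a ha)]
  refine ⟨∑ b ∈ S, DFinsupp.lsingle b ∘ₗ τ b, ?_, fun a ha v => ?_⟩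
  · ext x a
    rw [LinearMap.comp_apply, hval]
    exact congr($(hτ a) x)
  · rw [hval, hτ' a ha, LinearMap.zero_apply]

theorem CellFam.perp_dfinsupp {ι : Type u} {M : ι → Type u} [∀ a, AddCommGroup (M a)]
    [∀ a, Module R (M a)] (h : ∀ a, 𝒞.Perp (M a)) : 𝒞.Perp (Π₀ a, M a) := fun c ψ =>
  let ⟨τ, hτ, _⟩ := CellFam.perp_dfinsupp_ext h c ψ
  ⟨τ, hτ⟩

theorem CellFam.Perp.pi {E : Type u} [AddCommGroup E] [Module R E] (h : 𝒞.Perp E) (Y : Type u) :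
    𝒞.Perp (Y → E) := by
  intro c ψ
  choose τ hτ using fun y : Y => h c (LinearMap.proj y ∘ₗ ψ)
  exact ⟨LinearMap.pi τ, LinearMap.ext fun x => funext fun y => congr($(hτ y) x)⟩

namespace CellCx

variable {X : Type u} [AddCommGroup X] [Module R X] (𝒳 : CellCx 𝒞 X)
  (E : Type u) [AddCommGroup E] [Module R E]

/-- Maps from a cell that vanish on its boundary. -/
abbrev H (s : 𝒳.Λ) : Type u := {f : 𝒞.V (𝒳.c s) →ₗ[R] E // f ∘ₗ 𝒞.u (𝒳.c s) = 0}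

/-- The universal target. -/
abbrev W : Type u := Π₀ s : 𝒳.Λ, (𝒳.H E s → E)

theorem RC.union {I J : Set 𝒳.Λ} (hI : 𝒳.RC I) (hJ : 𝒳.RC J) : 𝒳.RC (I ∪ J) := by
  rintro s (hs | hs) t ht
  · exact Or.inl (hI s hs t ht)
  · exact Or.inr (hJ s hs t ht)

variable {E}

theorem exists_universal (hE : 𝒞.Perp E) : ∃ Ψ : X →ₗ[R] 𝒳.W E,
    (∀ I, 𝒳.RC I → ∀ s ∈ I, ∀ t ∉ I, ∀ v, Ψ (𝒳.γ s v) t = 0) ∧
    ∀ s v (f : 𝒳.H E s), Ψ (𝒳.γ s v) s f = f.1 v := by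
  classical
  choose ex hex hex' using fun s : 𝒳.Λ => CellFam.perp_dfinsupp_ext
    (M := fun s : 𝒳.Λ => 𝒳.H E s → E) (fun _ => hE.pi _) (𝒳.c s)
  let η : ∀ s, 𝒞.V (𝒳.c s) →ₗ[R] (𝒳.H E s → E) := fun s => LinearMap.pi fun f => f.1
  obtain ⟨Ψ, hΨ⟩ := 𝒳.recur (𝒳.W E) (fun s ψ' => ex s ψ' + DFinsupp.lsingle s ∘ₗ η s)
    (fun s ψ' => by
      have : η s ∘ₗ 𝒞.u (𝒳.c s) = 0 := LinearMap.ext fun x => funext fun f => congr($(f.2) x)
      rw [LinearMap.add_comp, hex, LinearMap.comp_assoc, this, LinearMap.comp_zero, add_zero])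
  have hatt : ∀ s t, (∀ s' ∈ 𝒳.r s, ∀ v, Ψ (𝒳.γ s' v) t = 0) →
      ∀ v, ex s (Ψ ∘ₗ 𝒳.γ s ∘ₗ 𝒞.u (𝒳.c s)) v t = 0 := by
    intro s t h
    refine hex' s _ t fun x => ?_
    have : LinearMap.range (𝒳.γ s ∘ₗ 𝒞.u (𝒳.c s)) ≤ LinearMap.ker (DFinsupp.lapply t ∘ₗ Ψ) :=
      att_le s (by
        rintro s' hs' _ ⟨v, rfl⟩
        exact h s' hs' v)
    exact this ⟨x, rfl⟩
  have h1 : ∀ I, 𝒳.RC I → ∀ s ∈ I, ∀ t ∉ I, ∀ v, Ψ (𝒳.γ s v) t = 0 := by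
    intro I hI
    refine ind fun s ih hs t ht v => ?_
    have hne : s ≠ t := fun h => ht (h ▸ hs)
    have h2 := congr($(hΨ s) v t)
    rw [LinearMap.comp_apply] at h2
    rw [h2, LinearMap.add_apply, DFinsupp.add_apply,
      hatt s t (fun s' hs' => ih s' hs' (hI s hs s' hs') t ht)]
    simp [hne]
  refine ⟨Ψ, h1, fun s v f => ?_⟩
  have hcl : 𝒳.RC {t | 𝒳.lev t < 𝒳.lev s} := fun t ht t' ht' => (𝒳.r_lev t t' ht').trans ht
  have h2 := congr($(hΨ s) v s)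
  rw [LinearMap.comp_apply] at h2
  rw [h2, LinearMap.add_apply, DFinsupp.add_apply,
    hatt s s (fun s' hs' => h1 _ hcl s' (𝒳.r_lev s s' hs') s (lt_irrefl (𝒳.lev s)))]
  simp [η]

theorem exists_factor {Ψ : X →ₗ[R] 𝒳.W E}
    (h1 : ∀ I, 𝒳.RC I → ∀ s ∈ I, ∀ t ∉ I, ∀ v, Ψ (𝒳.γ s v) t = 0)
    (h2 : ∀ s v (f : 𝒳.H E s), Ψ (𝒳.γ s v) s f = f.1 v) {I : Set 𝒳.Λ} (hI : 𝒳.RC I)
    (ε : X →ₗ[R] E) (hε : ∀ t ∈ I, ε ∘ₗ 𝒳.γ t = 0) (G : Finset 𝒳.Λ) :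
    𝒳.RC (I ∪ G) → ∃ g : 𝒳.W E →ₗ[R] E, (∀ w : 𝒳.W E, (∀ t ∉ I, w t = 0) → g w = 0) ∧
      ∀ t ∈ I ∪ G, (g ∘ₗ Ψ) ∘ₗ 𝒳.γ t = ε ∘ₗ 𝒳.γ t := by
  classical
  induction G using Finset.induction_on_max_value 𝒳.lev with
  | empty =>
    intro _
    exact ⟨0, fun _ _ => rfl, fun t ht => (hε t (by simpa using ht)).symm⟩
  | insert a G ha hmax ih =>
    intro hcl
    have hr : ∀ t ∈ I ∪ ↑(insert a G), ∀ t' ∈ 𝒳.r t, t' ∈ I ∪ G := by
      intro t ht t' ht'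
      rcases ht with ht | ht
      · exact Or.inl (hI t ht t' ht')
      have h3 : 𝒳.lev t ≤ 𝒳.lev a := by
        rcases Finset.mem_insert.1 ht with rfl | ht
        · exact le_rfl
        · exact hmax t ht
      have h4 := 𝒳.r_lev t t' ht'
      rcases hcl t (Or.inr ht) t' ht' with h5 | h5
      · exact Or.inl h5
      · rcases Finset.mem_insert.1 h5 with rfl | h5
        · omega
        · exact Or.inr h5
    have hsub : I ∪ G ⊆ I ∪ ↑(insert a G) :=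
      Set.union_subset_union_right _ (Finset.coe_subset.2 (Finset.subset_insert _ _))
    have hcl' : 𝒳.RC (I ∪ G) := fun t ht t' ht' => hr t (hsub ht) t' ht'
    obtain ⟨g, hg, hg'⟩ := ih hcl'
    by_cases haI : a ∈ I
    · refine ⟨g, hg, fun t ht => hg' t ?_⟩
      rcases ht with ht | ht
      · exact Or.inl ht
      · rcases Finset.mem_insert.1 ht with rfl | ht
        · exact Or.inl haI
        · exact Or.inr ht
    have h5 := eq_on_att a fun t ht => hg' t (hr a (Or.inr (Finset.mem_insert_self _ _)) t ht)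
    let f : 𝒳.H E a := ⟨(ε - g ∘ₗ Ψ) ∘ₗ 𝒳.γ a, by
      rw [LinearMap.comp_assoc, LinearMap.sub_comp, h5, sub_self]⟩
    refine ⟨g + (LinearMap.proj f : (𝒳.H E a → E) →ₗ[R] E) ∘ₗ
      (DFinsupp.lapply a : 𝒳.W E →ₗ[R] (𝒳.H E a → E)), fun w hw => ?_, fun t ht => ?_⟩
    · simp [hg w hw, hw a haI]
    · by_cases hta : t = a
      · subst hta
        ext v
        simp [h2, f]
      · have ht' : t ∈ I ∪ G := by
          rcases ht with ht | ht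
          · exact Or.inl ht
          · exact Or.inr ((Finset.mem_insert.1 ht).resolve_left hta)
        ext v
        have h6 := h1 _ hcl' t ht' a (fun h => h.elim haI ha) v
        have h7 := congr($(hg' t ht') v)
        simp only [LinearMap.comp_apply] at h7
        simp [h6, h7]

theorem extend_of_pure {K : Type u} [AddCommGroup K] [Module R K] (i : K →ₗ[R] X)
    (π : X →ₗ[R] K) (hπ : π ∘ₗ i = LinearMap.id) {J : Type u} (ι : K →ₗ[R] J →₀ R)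
    {M : Type u} [AddCommGroup M] [Module R M] (j : M →ₗ[R] E)
    (hpure : ∀ (κ : Type u) (s : Finset κ) (g : κ → J →₀ R) (b : κ → M)
      (y : (J →₀ R) →ₗ[R] E), (∀ k ∈ s, y (g k) = j (b k)) →
        ∃ z : (J →₀ R) →ₗ[R] M, ∀ k ∈ s, z (g k) = b k)
    (hE : 𝒞.Perp E) (hW : ∀ φ : K →ₗ[R] 𝒳.W E, ∃ x : (J →₀ R) →ₗ[R] 𝒳.W E, x ∘ₗ ι = φ)
    (ψ : K →ₗ[R] M) : ∃ y : (J →₀ R) →ₗ[R] M, y ∘ₗ ι = ψ := by
  classical
  obtain ⟨Ψ, h1, h2⟩ := 𝒳.exists_universal hE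
  obtain ⟨x, hx⟩ := hW (Ψ ∘ₗ i)
  choose var hvar using fun s => exists_support_finsupp (ι ∘ₗ π ∘ₗ 𝒳.γ s)
  choose es _ hes using fun s => exists_closed_of_fg (𝒳 := 𝒳)
    (Submodule.fg_range (i ∘ₗ π ∘ₗ 𝒳.γ s))
  choose gens hgens using fun s => Module.Finite.fg_top (R := R) (M := 𝒞.V (𝒳.c s))
  let supp : J → Finset 𝒳.Λ := fun a => (x (Finsupp.single a 1)).support
  let lc : (J → M) → (J →₀ R) →ₗ[R] M := fun y => Finsupp.linearCombination R y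
  have hlc : ∀ y y' (w : J →₀ R), (∀ a ∈ w.support, y' a = y a) → lc y' w = lc y w := by
    intro y y' w h
    simp only [lc, Finsupp.linearCombination_apply]
    exact Finsupp.sum_congr fun a ha => by rw [h a ha]
  have hM : Inhabited M := ⟨0⟩
  obtain ⟨y, hy⟩ := solve (M := M)
    (fun s y => (lc y ∘ₗ ι ∘ₗ π) ∘ₗ 𝒳.γ s = (ψ ∘ₗ π) ∘ₗ 𝒳.γ s) var supp
    (fun s => 𝒳.r s ∪ (var s).biUnion supp)
    (fun s y y' h hs => by
      rw [← hs]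
      ext v
      exact hlc y y' _ fun a ha => h a (hvar s v ha))
    (fun s a ha => (Finset.subset_biUnion_of_mem supp ha).trans Finset.subset_union_right)
    (fun G => 𝒳.RC G) (fun _ h => by simp at h) exists_closed (by
      intro I hI G G' hG hG' hGG' y hy
      have hIc : 𝒳.RC I := fun s hs t ht => hI s hs (by simp [ht])
      let ε : X →ₗ[R] M := ψ ∘ₗ π - lc y ∘ₗ ι ∘ₗ π
      have hε : ∀ t ∈ I ∪ G, ε ∘ₗ 𝒳.γ t = 0 := fun t ht => by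
        rw [LinearMap.sub_comp, hy t ht, sub_self]
      obtain ⟨G₃, hG₃, hG₃'⟩ := exists_closed (𝒳 := 𝒳) (G'.biUnion es)
      obtain ⟨g, hg, hg'⟩ := 𝒳.exists_factor h1 h2 (hIc.union _ hG) (j ∘ₗ ε)
        (fun t ht => by rw [LinearMap.comp_assoc, hε t ht, LinearMap.comp_zero]) G₃
        ((hIc.union _ hG).union _ hG₃')
      obtain ⟨z, hz⟩ := hpure ((Σ s, 𝒞.V (𝒳.c s)) ⊕ J)
        ((G'.sigma gens).disjSum ((G'.biUnion var).filter fun a => ↑(supp a) ⊆ I ∪ G))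
        (Sum.elim (fun p => ι (π (𝒳.γ p.1 p.2))) fun a => Finsupp.single a 1)
        (Sum.elim (fun p => ε (𝒳.γ p.1 p.2)) fun _ => 0) (g ∘ₗ x) (by
          rintro (⟨s, v⟩ | a) hk
          · have hs : s ∈ G' := (Finset.mem_sigma.1 (Finset.inl_mem_disjSum.1 hk)).1
            have h3 : i (π (𝒳.γ s v)) ∈ 𝒳.sub (I ∪ G ∪ G₃) :=
              sub_mono ((Finset.coe_subset.2
                ((Finset.subset_biUnion_of_mem es hs).trans hG₃)).trans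
                Set.subset_union_right) (hes s ⟨v, rfl⟩)
            have h4 := eq_on_sub hg' h3
            have h5 : x (ι (π (𝒳.γ s v))) = Ψ (i (π (𝒳.γ s v))) := congr($hx _)
            have h6 : π (i (π (𝒳.γ s v))) = π (𝒳.γ s v) := congr($hπ _)
            simp only [Sum.elim_inl, LinearMap.comp_apply, h5]
            refine h4.trans ?_
            simp [ε, h6]
          · have ha := (Finset.mem_filter.1 (Finset.inr_mem_disjSum.1 hk)).2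
            simp only [Sum.elim_inr, LinearMap.comp_apply, map_zero]
            refine hg _ fun t ht => ?_
            by_contra h
            exact ht (ha (DFinsupp.mem_support_iff.2 h)))
      let z' : J → M := fun a => if ↑(supp a) ⊆ I ∪ G then 0 else z (Finsupp.single a 1)
      have hz' : ∀ s ∈ I ∪ G', (lc z' ∘ₗ ι ∘ₗ π) ∘ₗ 𝒳.γ s = ε ∘ₗ 𝒳.γ s := by
        rintro s (hs | hs)
        · rw [hε s (Or.inl hs)]
          ext v
          have := hlc 0 z' (ι (π (𝒳.γ s v))) fun a ha => if_pos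
            ((Finset.coe_subset.2 ((Finset.subset_biUnion_of_mem supp (hvar s v ha)).trans
              Finset.subset_union_right)).trans ((hI s hs).trans Set.subset_union_left))
          simpa [lc] using this
        · refine LinearMap.ext_on (hgens s) fun v hv => ?_
          have h3 := hz (Sum.inl ⟨s, v⟩)
            (Finset.inl_mem_disjSum.2 (Finset.mem_sigma.2 ⟨hs, hv⟩))
          have h4 := hlc (fun a => z (Finsupp.single a 1)) z' (ι (π (𝒳.γ s v))) fun a ha => by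
            simp only [z']
            split_ifs with h
            · exact (hz (Sum.inr a) (Finset.inr_mem_disjSum.2 (Finset.mem_filter.2
                ⟨Finset.mem_biUnion.2 ⟨s, hs, hvar s v ha⟩, h⟩))).symm
            · rfl
          have h5 : lc (fun a => z (Finsupp.single a 1)) = z := by
            ext a
            simp [lc]
          rw [h5] at h4
          exact h4.trans h3
      refine ⟨y + z', fun s hs => ?_, fun a ha => ?_⟩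
      · have h3 : lc (y + z') = lc y + lc z' := by
          ext a
          simp [lc]
        rw [h3, LinearMap.add_comp, LinearMap.add_comp, hz' s hs, LinearMap.sub_comp,
          add_sub_cancel]
      · simp [z', ha])
  refine ⟨lc y, ?_⟩
  have := congrArg (· ∘ₗ i) (hom_ext hy)
  simpa only [LinearMap.comp_assoc, hπ, LinearMap.comp_id] using this

end CellCx

end Pool.Agent.MP_46786a_al

end
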