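import Pool.Agent.MP_46786a_al.Defs
import Pool.Agent.Mg.F46786a.G2dee07
import Mathlib

section

open CategoryTheory CategoryTheory.Limits CategoryTheory.Abelian

universe u

namespace Pool.Agent.MP_46786a_al

variable {R : Type u} [Ring R] (T : ModuleCat.{u} R)

/-- Ext from `T` vanishes in degrees above `k`. -/
def InB (k : ℕ) (E : Type u) [AddCommGroup E] [Module R E] : Prop :=
  ∀ i, k ≤ i → EZ R T E (i + 1)

/-- The left class of the cotorsion pair generated by `T`. -/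
def InA (U : Type u) [AddCommGroup U] [Module R U] : Prop :=
  ∀ (E : Type u) [AddCommGroup E] [Module R E], InB T 0 E → EZ R U E 1

variable {T}

section

variable {A B C U E : Type u} [AddCommGroup A] [Module R A] [AddCommGroup B] [Module R B]
    [AddCommGroup C] [Module R C] [AddCommGroup U] [Module R U] [AddCommGroup E] [Module R E]
    {f : A →ₗ[R] B} {g : B →ₗ[R] C}

theorem InB.of_injective [Module.Injective R E] (k : ℕ) : InB T k E :=
  fun i _ => EZ.of_injective i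

theorem InB.mono {k l : ℕ} (h : InB T k E) (hkl : k ≤ l) : InB T l E :=
  fun i hi => h i (hkl.trans hi)

theorem InB.equiv {k : ℕ} (h : InB T k B) (e : A ≃ₗ[R] B) : InB T k A :=
  fun i hi => (h i hi).equiv_right e

theorem InB.retract {k : ℕ} (h : InB T k B) (a : A →ₗ[R] B) (b : B →ₗ[R] A)
    (hab : b ∘ₗ a = LinearMap.id) : InB T k A :=
  fun i hi => (h i hi).retract_right a b hab

theorem SE.inB₃ (h : SE f g) {k : ℕ} (hB : InB T 0 B) (hA : InB T (k + 1) A) : InB T k C :=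
  fun i hi => h.cov₃ (hB i (Nat.zero_le _)) (hA (i + 1) (by omega))

theorem SE.inB₁ (h : SE f g) {k : ℕ} (hB : InB T 0 B) (hC : InB T k C) : InB T (k + 1) A := by
  intro i hi
  obtain ⟨j, rfl⟩ : ∃ j, i = j + 1 := ⟨i - 1, by omega⟩
  exact h.cov₁ (hC j (by omega)) (hB _ (Nat.zero_le _))

theorem InA.higher (hU : InA T U) (i : ℕ) :
    ∀ (E : Type u) [AddCommGroup E] [Module R E], InB T 0 E → EZ R U E (i + 1) := by
  induction i with
  | zero => exact hU
  | succ i ih =>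
    intro E _ _ hE
    obtain ⟨I, _, f, hf⟩ := exists_injective_embedding R E
    have hs := SE.coker f hf
    exact (EZ.cosyz_iff hs i).1 (ih _ (hs.inB₃ (InB.of_injective 0) (hE.mono (by omega))))

theorem SE.inA₁ (h : SE f g) (hB : InA T B) (hC : InA T C) : InA T A :=
  fun E _ _ hE => h.con₁ (hB E hE) (hC.higher 1 E hE)

theorem SE.inA₂ (h : SE f g) (hA : InA T A) (hC : InA T C) : InA T B :=
  fun E _ _ hE => h.con₂ (hA E hE) (hC E hE)

theorem InA.retract (h : InA T B) (a : A →ₗ[R] B) (b : B →ₗ[R] A)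
    (hab : b ∘ₗ a = LinearMap.id) : InA T A :=
  fun E _ _ hE => (h E hE).retract_left a b hab

theorem InA.equiv (h : InA T B) (e : A ≃ₗ[R] B) : InA T A :=
  fun E _ _ hE => (h E hE).equiv_left e

theorem InA.of_projective [Module.Projective R U] : InA T U :=
  fun _ _ _ _ => EZ.of_projective 0

theorem InA.of_subsingleton [Subsingleton U] : InA T U :=
  fun _ _ _ _ => EZ.of_subsingleton_left _

theorem InA.self : InA T T := fun _ _ _ hE => hE 0 le_rfl

theorem InA.finsupp (h : InA T U) (X : Type u) : InA T (X →₀ U) :=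
  fun E _ _ hE => (h E hE).finsupp_left X

theorem InA.prod (hA : InA T A) (hB : InA T B) : InA T (A × B) :=
  (SE.mk LinearMap.inl_injective Function.Exact.inl_snd LinearMap.snd_surjective :
    SE (LinearMap.inl R A B) (LinearMap.snd R A B)).inA₂ hA hB

end

theorem InAdd.inA {N : ModuleCat.{u} R} (h : InAdd T N) : InA T N := by
  obtain ⟨X, i, p, hip⟩ := h
  exact (InA.self.finsupp X).retract i p hip

theorem InB.pi {ι : Type u} {E : ι → Type u} [∀ a, AddCommGroup (E a)] [∀ a, Module R (E a)]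
    {k : ℕ} (h : ∀ a, InB T k (E a)) : InB T k (∀ a, E a) :=
  fun i hi => EZ.pi i _ fun a => h a i hi

theorem SE.dfinsupp {ι : Type u} {A B C : ι → Type u}
    [∀ a, AddCommGroup (A a)] [∀ a, Module R (A a)] [∀ a, AddCommGroup (B a)] [∀ a, Module R (B a)]
    [∀ a, AddCommGroup (C a)] [∀ a, Module R (C a)] {f : ∀ a, A a →ₗ[R] B a}
    {g : ∀ a, B a →ₗ[R] C a} (h : ∀ a, SE (f a) (g a)) :
    SE (DFinsupp.mapRange.linearMap f) (DFinsupp.mapRange.linearMap g) := by
  classical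
  refine ⟨(DFinsupp.mapRange_injective _ fun a => map_zero (f a)).2 fun a => (h a).inj, ?_,
    (DFinsupp.mapRange_surjective _ fun a => map_zero (g a)).2 fun a => (h a).surj⟩
  rw [LinearMap.exact_iff, DFinsupp.ker_mapRangeLinearMap, DFinsupp.range_mapRangeLinearMap]
  congr 2
  funext a
  exact LinearMap.exact_iff.1 (h a).ex

/-- The canonical map from a direct sum of copies of `T`. -/
noncomputable abbrev evT (T : ModuleCat.{u} R) (E : Type u) [AddCommGroup E] [Module R E] :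
    ((T →ₗ[R] E) →₀ T) →ₗ[R] E := Finsupp.lsum ℕ fun f => f

variable {n : ℕ}

theorem IsTilting.inB_finsupp (hT : IsTilting n T) (X : Type u) : InB T 0 (X →₀ T) :=
  fun i _ e => (hT.selfOrthogonal X (i + 1) (by omega)).elim e 0

theorem IsTilting.inB_top (hT : IsTilting n T) (E : Type u) [AddCommGroup E] [Module R E] :
    InB T n E := by
  intro i hi e
  have := hT.projDim
  exact Ext.eq_zero_of_hasProjectiveDimensionLT e (n + 1) (by omega)

theorem IsTilting.exists_env (hT : IsTilting n T) :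
    ∃ (C : ModuleCat.{u} R) (ι : R →ₗ[R] C), InAdd T C ∧ Function.Injective ι ∧
      InA T (C ⧸ LinearMap.range ι) := by
  obtain ⟨C, ι, d, hC, hC', hι, hιd, hd⟩ := hT.coresolution
  have hA : ∀ i, InA T (C i) := fun i => by
    by_cases hi : i ≤ n
    · exact (hC i hi).inA
    · have := hC' i (by omega)
      exact InA.of_subsingleton
  have key : ∀ j i, n ≤ i + j → InA T (LinearMap.range (d i)) := by
    intro j
    induction j with
    | zero =>
      intro i hi
      have := hC' (i + 1) (by omega)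
      exact InA.of_subsingleton
    | succ j ih =>
      intro i hi
      have hs : SE (LinearMap.range (d i)).subtype (d (i + 1)).rangeRestrict := by
        refine ⟨(LinearMap.range (d i)).injective_subtype, ?_, (d (i + 1)).surjective_rangeRestrict⟩
        rw [LinearMap.exact_iff, LinearMap.ker_rangeRestrict, Submodule.range_subtype]
        exact LinearMap.exact_iff.1 (hd i)
      exact hs.inA₁ (hA _) (ih (i + 1) (by omega))
  refine ⟨C 0, ι, hC 0 (Nat.zero_le _), hι, ?_⟩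
  refine (key n 0 (by omega)).equiv ?_
  exact (Submodule.quotEquivOfEq _ _ (LinearMap.exact_iff.1 hιd).symm).trans
    (d 0).quotKerEquivRange

theorem IsTilting.evT_surjective (hT : IsTilting n T) {E : Type u} [AddCommGroup E] [Module R E]
    (hE : InB T 0 E) : Function.Surjective (evT T E) := by
  obtain ⟨C, ι, ⟨X, i, p, hip⟩, hι, hA⟩ := hT.exists_env
  intro m
  obtain ⟨ψ, hψ⟩ := (SE.coker ι hι).extend (hA E hE) (LinearMap.toSpanSingleton R E m)
  have h1 : ∀ w : X →₀ T, ψ (p w) ∈ LinearMap.range (evT T E) := by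
    intro w
    induction w using Finsupp.induction_linear with
    | zero => simp
    | add a b ha hb => simpa only [map_add] using add_mem ha hb
    | single x t =>
      exact ⟨Finsupp.single (ψ ∘ₗ p ∘ₗ Finsupp.lsingle x) t, by simp⟩
  have h2 : ψ (p (i (ι 1))) = m := by
    have h3 : p (i (ι 1)) = ι 1 := congr($hip (ι 1))
    rw [h3]
    simpa using congr($hψ 1)
  exact h2 ▸ h1 _

theorem IsTilting.inB_ker_evT (hT : IsTilting n T) {E : Type u} [AddCommGroup E] [Module R E]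
    (hE : InB T 0 E) : InB T 0 (LinearMap.ker (evT T E)) := by
  have hs := SE.ker _ (hT.evT_surjective hE)
  intro i _
  cases i with
  | zero =>
    refine hs.of_lift (fun φ => ⟨Finsupp.lsingle φ, ?_⟩) (hT.inB_finsupp _ 0 le_rfl)
    ext t
    simp
  | succ i => exact hs.inB₁ (hT.inB_finsupp _) hE _ (by omega)

theorem IsTilting.inAdd (hT : IsTilting n T) {Z : ModuleCat.{u} R} (hA : InA T Z)
    (hB : InB T 0 Z) : InAdd T Z := by
  obtain ⟨s, hs⟩ := (SE.ker _ (hT.evT_surjective hB)).lift (hA _ (hT.inB_ker_evT hB))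
    LinearMap.id
  exact ⟨_, s, evT T Z, hs⟩

theorem IsTilting.inB_dfinsupp_zero (hT : IsTilting n T) {ι : Type u} (m : ℕ) :
    ∀ k, n ≤ k + m → ∀ (E : ι → Type u) [∀ a, AddCommGroup (E a)] [∀ a, Module R (E a)],
      (∀ a, InB T 0 (E a)) → InB T k (Π₀ a, E a) := by
  classical
  induction m with
  | zero => intro k hk E _ _ _; exact (hT.inB_top _).mono (by omega)
  | succ m ih =>
    intro k hk E _ _ hE
    have hs := SE.dfinsupp fun a => SE.ker _ (hT.evT_surjective (hE a))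
    refine hs.inB₃ ?_ (ih (k + 1) (by omega) _ fun a => hT.inB_ker_evT (hE a))
    exact (hT.inB_finsupp _).equiv (sigmaFinsuppLequivDFinsupp R).symm

theorem IsTilting.inB_dfinsupp (hT : IsTilting n T) {ι : Type u} (k : ℕ) :
    ∀ (E : ι → Type u) [∀ a, AddCommGroup (E a)] [∀ a, Module R (E a)],
      (∀ a, InB T k (E a)) → InB T k (Π₀ a, E a) := by
  induction k with
  | zero => exact hT.inB_dfinsupp_zero n 0 (by omega)
  | succ k ih =>
    intro E _ _ hE
    choose I hI f hf using fun a => exists_injective_embedding R (E a)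
    have hs := SE.dfinsupp fun a => SE.coker _ (hf a)
    refine hs.inB₁ (hT.inB_dfinsupp_zero n 0 (by omega) _ fun a => InB.of_injective 0)
      (ih _ fun a => (SE.coker _ (hf a)).inB₃ (InB.of_injective 0) (hE a))

theorem exists_syzygy (T : ModuleCat.{u} R) (k : ℕ) :
    ∃ U : ModuleCat.{u} R, InA T U ∧ ∀ (E : Type u) [AddCommGroup E] [Module R E] (i : ℕ),
      EZ R U E (i + 1) ↔ EZ R T E (i + k + 1) := by
  induction k with
  | zero => exact ⟨T, InA.self, fun _ _ _ _ => Iff.rfl⟩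
  | succ k ih =>
    obtain ⟨U, hU, h⟩ := ih
    have hs := SE.ker (cover R U) cover_surjective
    refine ⟨ModuleCat.of R (LinearMap.ker (cover R U)), hs.inA₁ InA.of_projective hU, ?_⟩
    intro E _ _ i
    rw [show i + (k + 1) + 1 = (i + 1) + k + 1 by omega, ← h E (i + 1)]
    exact EZ.syz_iff hs i

end Pool.Agent.MP_46786a_al

end

section

set_option linter.unusedSectionVars false

universe u

namespace Pool.Agent.MP_46786a_al

/-- The rational circle. -/
abbrev Dq : Type := AddCircle (1 : ℚ)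

theorem exists_extend_through {A B : Type*} [AddCommGroup A] [AddCommGroup B] (θ : A →+ B)
    (ω : A →+ Dq) (h : ∀ a, θ a = 0 → ω a = 0) : ∃ β : B →+ Dq, ∀ a, β (θ a) = ω a := by
  obtain ⟨β, hβ⟩ := (Module.Baer.of_divisible Dq).extension_property_addMonoidHom
    (QuotientAddGroup.kerLift θ) (QuotientAddGroup.kerLift_injective θ)
    (QuotientAddGroup.lift θ.ker ω h)
  exact ⟨β, fun a => congr($hβ (QuotientAddGroup.mk a))⟩

theorem exists_separating {A B : Type*} [AddCommGroup A] [AddCommGroup B] (θ : A →+ B)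
    (b : B) (hb : ∀ a, θ a ≠ b) : ∃ χ : B →+ Dq, (∀ a, χ (θ a) = 0) ∧ χ b ≠ 0 := by
  have h1 : (QuotientAddGroup.mk b : B ⧸ θ.range) ≠ 0 := by
    rw [Ne, QuotientAddGroup.eq_zero_iff]
    rintro ⟨a, ha⟩
    exact hb a ha
  obtain ⟨c, hc⟩ := CharacterModule.exists_character_apply_ne_zero_of_ne_zero h1
  refine ⟨AddMonoidHom.comp c (QuotientAddGroup.mk' θ.range), fun a => ?_, hc⟩
  have : (QuotientAddGroup.mk (θ a) : B ⧸ θ.range) = 0 :=
    (QuotientAddGroup.eq_zero_iff _).2 ⟨a, rfl⟩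
  change c (QuotientAddGroup.mk (θ a)) = 0
  rw [this, map_zero]

variable (R : Type u) [Ring R] (M : Type u) [AddCommGroup M] [Module R M]

/-- The double character dual. -/
def DD (_R : Type u) (M : Type u) [AddCommGroup M] : Type u := (M →+ Dq) →+ Dq

instance : AddCommGroup (DD R M) := inferInstanceAs (AddCommGroup ((M →+ Dq) →+ Dq))

variable {R M}

/-- The underlying homomorphism. -/
def DD.val (ξ : DD R M) : (M →+ Dq) →+ Dq := ξ

theorem DD.ext {ξ ξ' : DD R M} (h : ∀ χ, ξ.val χ = ξ'.val χ) : ξ = ξ' := AddMonoidHom.ext h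

@[simp] theorem DD.val_add (ξ ξ' : DD R M) (χ) : (ξ + ξ').val χ = ξ.val χ + ξ'.val χ := rfl

@[simp] theorem DD.val_zero (χ) : (0 : DD R M).val χ = 0 := rfl

/-- The right action on characters. -/
def actr (M : Type u) [AddCommGroup M] [Module R M] (r : R) : (M →+ Dq) →+ (M →+ Dq) where
  toFun χ := χ.comp (DistribSMul.toAddMonoidHom M r)
  map_zero' := rfl
  map_add' _ _ := rfl

@[simp] theorem actr_apply (r : R) (χ : M →+ Dq) (m : M) : actr M r χ m = χ (r • m) := rfl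

instance : Module R (DD R M) where
  smul r ξ := ξ.val.comp (actr M r)
  one_smul ξ := DD.ext fun χ => congrArg ξ.val (by ext m; simp)
  mul_smul r s ξ := DD.ext fun χ => congrArg ξ.val (by
    ext m
    change χ ((r * s) • m) = χ (r • s • m)
    rw [mul_smul])
  smul_zero _ := rfl
  smul_add _ _ _ := rfl
  add_smul r s ξ := DD.ext fun χ => by
    change ξ.val (actr M (r + s) χ) = ξ.val (actr M r χ) + ξ.val (actr M s χ)
    rw [← map_add]
    congr 1
    ext m
    simp [add_smul]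
  zero_smul ξ := DD.ext fun χ => by
    change ξ.val (actr M (0 : R) χ) = 0
    rw [← map_zero ξ.val]
    congr 1
    ext m
    simp

@[simp] theorem DD.val_smul (r : R) (ξ : DD R M) (χ) : (r • ξ).val χ = ξ.val (actr M r χ) := rfl

variable (R M) in
/-- The evaluation map into the double dual. -/
def ev : M →ₗ[R] DD R M where
  toFun m := (AddMonoidHom.eval m : (M →+ Dq) →+ Dq)
  map_add' m m' := DD.ext fun χ => map_add χ m m'
  map_smul' _ _ := rfl

@[simp] theorem ev_val (m : M) (χ) : (ev R M m).val χ = χ m := rfl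

theorem ev_injective : Function.Injective (ev R M) := by
  rw [injective_iff_map_eq_zero]
  intro m hm
  by_contra h
  obtain ⟨c, hc⟩ := CharacterModule.exists_character_apply_ne_zero_of_ne_zero h
  exact hc (congrArg (fun ξ : DD R M => ξ.val c) hm)

theorem dd_crit {F κ : Type u} [AddCommGroup F] [Module R F] (g : κ → F) (b : κ → DD R M)
    (h : ∀ (s : Finset κ) (w : κ → (M →+ Dq)),
      (∀ z : F →ₗ[R] M, ∑ k ∈ s, w k (z (g k)) = 0) → ∑ k ∈ s, (b k).val (w k) = 0) :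
    ∃ y : F →ₗ[R] DD R M, ∀ k, y (g k) = b k := by
  let pull : F → (M →+ Dq) →+ ((F →ₗ[R] M) →+ Dq) := fun x =>
    { toFun := fun χ => χ.comp (LinearMap.evalAddMonoidHom x)
      map_zero' := rfl
      map_add' := fun _ _ => rfl }
  let Θ : (κ →₀ (M →+ Dq)) →+ ((F →ₗ[R] M) →+ Dq) := Finsupp.liftAddHom fun k => pull (g k)
  let ω : (κ →₀ (M →+ Dq)) →+ Dq := Finsupp.liftAddHom fun k => (b k).val
  obtain ⟨β, hβ⟩ := exists_extend_through Θ ω (fun (w : κ →₀ (M →+ Dq)) (hw : Θ w = 0) => by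
    refine h w.support w fun z => ?_
    have := DFunLike.congr_fun hw z
    simpa [Θ, Finsupp.sum, AddMonoidHom.finsetSum_apply, pull] using this)
  refine ⟨⟨⟨fun x => β.comp (pull x), fun x x' => DD.ext fun χ => ?_⟩,
    fun r x => DD.ext fun χ => ?_⟩, fun k => DD.ext fun χ => ?_⟩
  · change β (pull (x + x') χ) = β (pull x χ) + β (pull x' χ)
    rw [← map_add]
    congr 1
    ext z
    simp [pull]
  · change β (pull (r • x) χ) = β (pull x (actr M r χ))
    congr 1
    ext z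
    simp [pull]
  · have := hβ (Finsupp.single k χ)
    change β (pull (g k) χ) = _
    simpa [Θ, ω] using this

variable (R M) in
/-- Relations that hold for all maps into `M` hold for all maps into the double dual. -/
def Nec (F : Type u) [AddCommGroup F] [Module R F] : Prop :=
  ∀ (y : F →ₗ[R] DD R M) (κ : Type u) (s : Finset κ) (w : κ → (M →+ Dq)) (g : κ → F),
    (∀ z : F →ₗ[R] M, ∑ k ∈ s, w k (z (g k)) = 0) → ∑ k ∈ s, (y (g k)).val (w k) = 0

theorem nec_finsupp (J : Type u) : Nec R M (J →₀ R) := by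
  intro y κ s w g h
  let B : (J →₀ (M →+ Dq)) →+ Dq := Finsupp.liftAddHom fun j => (y (Finsupp.single j 1)).val
  let θ : (M →+ Dq) → (J →₀ R) →+ (J →₀ (M →+ Dq)) := fun χ => Finsupp.mapRange.addMonoidHom
    { toFun := fun r => actr M r χ
      map_zero' := by ext m; simp
      map_add' := fun r r' => by ext m; simp [add_smul] }
  have h1 : ∀ χ x, (y x).val χ = B (θ χ x) := by
    intro χ x
    induction x using Finsupp.induction_linear with
    | zero => simp
    | add a b ha hb => simp [ha, hb]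
    | single j r =>
      rw [← Finsupp.smul_single_one, map_smul]
      simp [B, θ]
  simp only [h1]
  rw [← map_sum]
  convert map_zero B
  ext j m
  have := h ((Finsupp.lapply j).smulRight m)
  simpa [θ, Finsupp.finsetSum_apply, AddMonoidHom.finsetSum_apply] using this

theorem Nec.of_presentation {F₀ U : Type u} [AddCommGroup F₀] [Module R F₀] [AddCommGroup U]
    [Module R U] (h₀ : Nec R M F₀) {m : ℕ} (f : F₀ →ₗ[R] U) (a : (Fin m → R) →ₗ[R] F₀)
    (hf : Function.Surjective f) (ha : Function.Exact a f) : Nec R M U := by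
  classical
  intro y κ s w g h
  choose g' hg' using fun k => hf (g k)
  let μ : (F₀ →ₗ[R] M) →+ Dq := ∑ k ∈ s, (w k).comp (LinearMap.evalAddMonoidHom (g' k))
  have hμ : ∀ z, μ z = ∑ k ∈ s, w k (z (g' k)) := fun z => by
    simp [μ, AddMonoidHom.finsetSum_apply]
  let A : (F₀ →ₗ[R] M) →+ (Fin m → M) :=
    { toFun := fun z i => z (a (Pi.single i 1))
      map_zero' := rfl
      map_add' := fun _ _ => rfl }
  obtain ⟨ν, hν⟩ := exists_extend_through A μ (fun z hz => by
    have h1 : z ∘ₗ a = 0 := by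
      ext i
      exact congrFun hz i
    have h2 : LinearMap.ker f ≤ LinearMap.ker z := by
      rw [LinearMap.exact_iff.1 ha]
      exact LinearMap.range_le_ker_iff.2 h1
    have := h ((LinearMap.ker f).liftQ z h2 ∘ₗ (f.quotKerEquivOfSurjective hf).symm.toLinearMap)
    rw [hμ, ← this]
    refine Finset.sum_congr rfl fun k _ => ?_
    rw [← hg' k]
    simp)
  have := h₀ (y ∘ₗ f) (κ ⊕ ULift.{u} (Fin m)) (s.disjSum Finset.univ)
    (Sum.elim w fun i => -(ν.comp (AddMonoidHom.single (fun _ => M) i.down)))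
    (Sum.elim g' fun i => a (Pi.single i.down 1)) (fun z => by
      rw [Finset.sum_disjSum]
      simp only [Sum.elim_inl, Sum.elim_inr, AddMonoidHom.neg_apply, AddMonoidHom.comp_apply,
        Finset.sum_neg_distrib]
      rw [← hμ, ← hν, ← map_sum, add_neg_eq_zero]
      congr 1
      ext i
      rw [Finset.sum_apply, Finset.sum_eq_single (ULift.up i)]
      · simp [A]
      · intro j _ hj
        exact Pi.single_eq_of_ne' (fun h => hj (ULift.ext _ _ h)) _
      · simp)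
  rw [Finset.sum_disjSum] at this
  have h3 : ∀ v, f (a v) = 0 := fun v => (ha _).2 ⟨v, rfl⟩
  simpa [hg', h3] using this

theorem nec_fp (U : Type u) [AddCommGroup U] [Module R U] [Module.FinitePresentation R U] :
    Nec R M U := by
  obtain ⟨n, m, f, a, hf, ha⟩ := Module.FinitePresentation.exists_fin' R U
  let e : (ULift.{u} (Fin n) →₀ R) ≃ₗ[R] (Fin n → R) :=
    (Finsupp.domLCongr Equiv.ulift).trans (Finsupp.linearEquivFunOnFinite R R _)
  refine (nec_finsupp (ULift.{u} (Fin n))).of_presentation (f ∘ₗ e.toLinearMap)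
    (e.symm.toLinearMap ∘ₗ a) (hf.comp e.surjective) ?_
  intro x
  rw [LinearMap.comp_apply, ha]
  constructor
  · rintro ⟨v, hv⟩
    exact ⟨v, by simp [hv]⟩
  · rintro ⟨v, rfl⟩
    exact ⟨v, by simp⟩

theorem dd_pure {J κ : Type u} (s : Finset κ) (g : κ → (J →₀ R)) (b : κ → M)
    (y : (J →₀ R) →ₗ[R] DD R M) (hy : ∀ k ∈ s, y (g k) = ev R M (b k)) :
    ∃ z : (J →₀ R) →ₗ[R] M, ∀ k ∈ s, z (g k) = b k := by
  classical
  by_contra hcon
  let A : ((J →₀ R) →ₗ[R] M) →+ (s → M) :=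
    { toFun := fun z k => z (g k)
      map_zero' := rfl
      map_add' := fun _ _ => rfl }
  obtain ⟨χ, hχ, hχ'⟩ := exists_separating A (fun k => b k)
    (fun z hz => hcon ⟨z, fun k hk => congrFun hz ⟨k, hk⟩⟩)
  have hsum : ∀ v : s → M, χ v = ∑ k, χ (Pi.single k (v k)) := fun v => by
    rw [← map_sum, Finset.univ_sum_single]
  have := nec_finsupp J y s Finset.univ
    (fun k => χ.comp (AddMonoidHom.single (fun _ => M) k)) (fun k => g k)
    (fun z => (hsum (A z)).symm.trans (hχ z))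
  apply hχ'
  rw [hsum, ← this]
  refine Finset.sum_congr rfl fun k _ => ?_
  rw [hy k k.2]
  rfl

theorem dd_extend {U V : Type u} [AddCommGroup U] [Module R U] [AddCommGroup V] [Module R V]
    [Module.FinitePresentation R U] (u : U →ₗ[R] V)
    (h : ∀ ψ : U →ₗ[R] M, ∃ τ : V →ₗ[R] M, τ ∘ₗ u = ψ) (ψ : U →ₗ[R] DD R M) :
    ∃ τ : V →ₗ[R] DD R M, τ ∘ₗ u = ψ := by
  obtain ⟨y, hy⟩ := dd_crit (u : U → V) (ψ : U → DD R M) (fun s w hw => by
    refine nec_fp U ψ U s w id fun z => ?_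
    obtain ⟨τ, rfl⟩ := h z
    exact hw τ)
  exact ⟨y, LinearMap.ext hy⟩

end Pool.Agent.MP_46786a_al

end

section

universe u

namespace Pool.Agent.MP_46786a_al

/-- Codes for finitely presented modules. -/
structure FPM (R : Type u) [Ring R] where
  n : ℕ
  K : Submodule R (Fin n → R)
  fg : K.FG

variable {R : Type u} [Ring R]

/-- The module with a given code. -/
abbrev FPM.car (P : FPM R) : Type u := (Fin P.n → R) ⧸ P.K

instance (P : FPM R) : Module.FinitePresentation R P.car :=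
  Module.finitePresentation_of_surjective P.K.mkQ P.K.mkQ_surjective
    (by rw [Submodule.ker_mkQ]; exact P.fg)

theorem exists_fpm (M : Type u) [AddCommGroup M] [Module R M] [Module.FinitePresentation R M] :
    ∃ P : FPM R, Nonempty (M ≃ₗ[R] P.car) := by
  obtain ⟨n, K, e, h⟩ := Module.FinitePresentation.exists_fin R M
  exact ⟨⟨n, K, h⟩, ⟨e⟩⟩

variable (T : ModuleCat.{u} R)

/-- Injective maps with cokernel in the left class. -/
structure Cof {A B : Type u} [AddCommGroup A] [Module R A] [AddCommGroup B] [Module R B]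
    (f : A →ₗ[R] B) : Prop where
  inj : Function.Injective f
  inA : InA T (B ⧸ LinearMap.range f)

/-- Cells attached to `T`. -/
structure Cell where
  U : FPM R
  V : FPM R
  u : U.car →ₗ[R] V.car
  cof : Cof T u

/-- The family of all cells attached to `T`. -/
abbrev cells : CellFam R where
  C := Cell T
  U c := ModuleCat.of R c.U.car
  V c := ModuleCat.of R c.V.car
  u c := c.u
  inj c := c.cof.inj
  fpU _ := inferInstance
  fpV _ := inferInstance

variable {T}

section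

variable {A B C E : Type u} [AddCommGroup A] [Module R A] [AddCommGroup B] [Module R B]
    [AddCommGroup C] [Module R C] [AddCommGroup E] [Module R E]
    {f : A →ₗ[R] B} {g : B →ₗ[R] C}

theorem SE.cof (h : SE f g) (hC : InA T C) : Cof T f :=
  ⟨h.inj, hC.equiv ((Submodule.quotEquivOfEq _ _ (LinearMap.exact_iff.1 h.ex).symm).trans
    (g.quotKerEquivOfSurjective h.surj))⟩

theorem SE.quot_comp (f : A →ₗ[R] B) (hg : Function.Injective g) :
    SE ((LinearMap.range f).mapQ (LinearMap.range (g ∘ₗ f)) g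
        (by rintro _ ⟨x, rfl⟩; exact ⟨x, rfl⟩))
      (Submodule.factor (LinearMap.range_comp_le_range f g)) := by
  refine ⟨?_, ?_, Submodule.factor_surjective _⟩
  · rw [injective_iff_map_eq_zero]
    intro x hx
    obtain ⟨x, rfl⟩ := Submodule.Quotient.mk_surjective _ x
    rw [Submodule.mapQ_apply, Submodule.Quotient.mk_eq_zero] at hx
    obtain ⟨y, hy⟩ := hx
    exact (Submodule.Quotient.mk_eq_zero _).2 ⟨y, hg hy⟩
  · intro x
    obtain ⟨x, rfl⟩ := Submodule.Quotient.mk_surjective _ x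
    constructor
    · intro hx
      obtain ⟨y, rfl⟩ := (Submodule.Quotient.mk_eq_zero _).1 hx
      exact ⟨Submodule.Quotient.mk y, rfl⟩
    · rintro ⟨y, hy⟩
      obtain ⟨y, rfl⟩ := Submodule.Quotient.mk_surjective _ y
      rw [← hy]
      exact (Submodule.Quotient.mk_eq_zero _).2 ⟨y, rfl⟩

theorem Cof.comp (hg : Cof T g) (hf : Cof T f) : Cof T (g ∘ₗ f) :=
  ⟨hg.inj.comp hf.inj, (SE.quot_comp f hg.inj).inA₂ hf.inA hg.inA⟩

theorem Cof.cancel (hgf : Cof T (g ∘ₗ f)) (hg : Cof T g) : Cof T f :=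
  ⟨Function.Injective.of_comp (f := g) hgf.inj, (SE.quot_comp f hg.inj).inA₁ hgf.inA hg.inA⟩

theorem Cof.of_equiv (e : A ≃ₗ[R] B) : Cof T e.toLinearMap := by
  refine ⟨e.injective, ?_⟩
  have : Subsingleton (B ⧸ LinearMap.range e.toLinearMap) := by
    rw [LinearEquiv.range]
    infer_instance
  exact InA.of_subsingleton

theorem Cof.exists_cell [Module.FinitePresentation R A] [Module.FinitePresentation R B]
    (hf : Cof T f) : ∃ (c : Cell T) (a : A ≃ₗ[R] c.U.car) (b : B ≃ₗ[R] c.V.car),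
      c.u = b.toLinearMap ∘ₗ f ∘ₗ a.symm.toLinearMap := by
  obtain ⟨P, ⟨a⟩⟩ := exists_fpm (R := R) A
  obtain ⟨Q, ⟨b⟩⟩ := exists_fpm (R := R) B
  exact ⟨⟨P, Q, _, (Cof.of_equiv b).comp (hf.comp (Cof.of_equiv a.symm))⟩, a, b, rfl⟩

theorem Cof.extend [Module.FinitePresentation R A] [Module.FinitePresentation R B]
    (hf : Cof T f) (hE : (cells T).Perp E) (ψ : A →ₗ[R] E) : ∃ τ : B →ₗ[R] E, τ ∘ₗ f = ψ := by
  obtain ⟨c, a, b, h⟩ := hf.exists_cell
  obtain ⟨τ, hτ⟩ := hE c (ψ ∘ₗ a.symm.toLinearMap)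
  refine ⟨τ ∘ₗ b.toLinearMap, ?_⟩
  ext x
  have := congr($hτ (a x))
  simpa [h] using this

theorem InB.perp (hE : InB T 0 E) : (cells T).Perp E := fun c ψ =>
  (SE.coker c.u c.cof.inj).extend (c.cof.inA E hE) ψ

theorem SE.prodMap {A' B' C' : Type u} [AddCommGroup A'] [Module R A'] [AddCommGroup B']
    [Module R B'] [AddCommGroup C'] [Module R C'] {f' : A' →ₗ[R] B'} {g' : B' →ₗ[R] C'}
    (h : SE f g) (h' : SE f' g') : SE (f.prodMap f') (g.prodMap g') := by
  refine ⟨h.inj.prodMap h'.inj, fun x => ?_, h.surj.prodMap h'.surj⟩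
  constructor
  · intro hx
    obtain ⟨a, ha⟩ := (h.ex x.1).1 (congrArg Prod.fst hx)
    obtain ⟨a', ha'⟩ := (h'.ex x.2).1 (congrArg Prod.snd hx)
    exact ⟨(a, a'), Prod.ext ha ha'⟩
  · rintro ⟨a, rfl⟩
    exact Prod.ext (h.ex.apply_apply_eq_zero _) (h'.ex.apply_apply_eq_zero _)

end

theorem CellCx.inA_quot {X : Type u} [AddCommGroup X] [Module R X] (𝒳 : CellCx (cells T) X)
    {G : Set 𝒳.Λ} (hG : 𝒳.RC G) : InA T (X ⧸ 𝒳.sub G) :=
  fun E _ _ hE => 𝒳.ez_quot hG fun c => c.cof.inA E hE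

theorem CellCx.inA {X : Type u} [AddCommGroup X] [Module R X] (𝒳 : CellCx (cells T) X) :
    InA T X :=
  (𝒳.inA_quot (G := ∅) (fun _ h => h.elim)).equiv
    (Submodule.quotEquivOfEqBot _ (by simp [CellCx.sub])).symm

theorem exists_cell_retract (K : Type u) [AddCommGroup K] [Module R K]
    (hK : ∀ (M : Type u) [AddCommGroup M] [Module R M], (cells T).Perp M → EZ R K M 1) :
    ∃ (X : ModuleCat.{u} R) (_ : CellCx (cells T) X) (i : K →ₗ[R] X) (π : X →ₗ[R] K),
      π ∘ₗ i = LinearMap.id := by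
  obtain ⟨X, 𝒳, p, hp⟩ := exists_cellCx (cells T) K
  have hsurj : Function.Surjective p := by
    intro k
    have hc : Cof T (0 : PUnit.{u + 1} →ₗ[R] R) :=
      (SE.mk (fun _ _ _ => Subsingleton.elim _ _)
        (by rw [LinearMap.exact_iff]; simp) Function.surjective_id :
        SE (0 : PUnit.{u + 1} →ₗ[R] R) LinearMap.id).cof InA.of_projective
    obtain ⟨c, a, b, h⟩ := hc.exists_cell
    obtain ⟨σ, -, hσ⟩ := hp c 0 (LinearMap.toSpanSingleton R K k ∘ₗ b.symm.toLinearMap)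
      (by simp [h])
    exact ⟨σ (b 1), by simpa using congr($hσ (b 1))⟩
  have hker : (cells T).Perp (LinearMap.ker p) := by
    intro c ψ
    obtain ⟨σ, h1, h2⟩ := hp c ((LinearMap.ker p).subtype ∘ₗ ψ) 0
      (LinearMap.ext fun x => (ψ x).2)
    exact ⟨σ.codRestrict _ fun v => congr($h2 v), LinearMap.ext fun x => Subtype.ext congr($h1 x)⟩
  obtain ⟨i, hi⟩ := (SE.ker p hsurj).lift (hK _ hker) LinearMap.id
  exact ⟨X, 𝒳, i, p, hi⟩

theorem dd_extend_free {X K U J M : Type u} [AddCommGroup X] [Module R X] [AddCommGroup K]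
    [Module R K] [AddCommGroup U] [Module R U] [AddCommGroup M] [Module R M]
    (𝒳 : CellCx (cells T) X) (i : K →ₗ[R] X) (π : X →ₗ[R] K) (hπ : π ∘ₗ i = LinearMap.id)
    {ι : K →ₗ[R] J →₀ R} {p : (J →₀ R) →ₗ[R] U} (hs : SE ι p) (hU : InA T U)
    (hM : (cells T).Perp M) (ψ : K →ₗ[R] DD R M) :
    ∃ y : (J →₀ R) →ₗ[R] DD R M, y ∘ₗ ι = ψ := by
  classical
  have hπ' : ∀ k, π (i k) = k := fun k => congr($hπ k)
  have hK : InA T K := hs.inA₁ InA.of_projective hU
  let σ : X →ₗ[R] (J →₀ R) × X := LinearMap.prod (ι ∘ₗ π) (LinearMap.id - i ∘ₗ π)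
  have hσ : Cof T σ := by
    refine SE.cof (g := p.prodMap π) ⟨?_, fun x => ?_, ?_⟩ (hU.prod hK)
    · rw [injective_iff_map_eq_zero]
      intro x hx
      have h1 : π x = 0 := hs.inj ((congrArg Prod.fst hx).trans (map_zero ι).symm)
      have h2 : x - i (π x) = 0 := congrArg Prod.snd hx
      simpa [h1] using h2
    · constructor
      · intro hx
        obtain ⟨k, hk⟩ := (hs.ex x.1).1 (congrArg Prod.fst hx)
        have h2 : π x.2 = 0 := congrArg Prod.snd hx
        exact ⟨i k + x.2, Prod.ext (by simp [σ, hπ', h2, hk]) (by simp [σ, hπ', h2])⟩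
      · rintro ⟨x, rfl⟩
        exact Prod.ext (hs.ex.apply_apply_eq_zero _) (by simp [σ, hπ'])
    · exact hs.surj.prodMap fun k => ⟨i k, hπ' k⟩
  obtain ⟨y, hy⟩ := dd_crit (ι : K → J →₀ R) (ψ : K → DD R M) (fun s w hw => by
    obtain ⟨G, hG, hG'⟩ := CellCx.exists_closed_of_fg (𝒳 := 𝒳)
      (Submodule.fg_span (s.finite_toSet.image i))
    have hfp := CellCx.finitePresentation_sub G hG
    obtain ⟨H, hH, hH'⟩ := CellCx.exists_closed_of_fg (𝒳 := 𝒳)
      (Submodule.fg_range ((LinearMap.id - i ∘ₗ π) ∘ₗ (𝒳.sub G).subtype))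
    have hfp' := CellCx.finitePresentation_sub H hH
    obtain ⟨J₀, hJ₀⟩ := exists_support_finsupp (ι ∘ₗ π ∘ₗ (𝒳.sub G).subtype)
    let F₀ := Finsupp.supported R R (J₀ : Set J)
    have hfp'' : Module.FinitePresentation R F₀ :=
      Module.FinitePresentation.of_equiv (M := (J₀ : Set J) →₀ R) (N := F₀)
        (Finsupp.supportedEquivFinsupp (J₀ : Set J)).symm
    let σ₀ : 𝒳.sub G →ₗ[R] F₀ × 𝒳.sub H := LinearMap.prod
      ((ι ∘ₗ π ∘ₗ (𝒳.sub G).subtype).codRestrict F₀ fun x => Finset.coe_subset.2 (hJ₀ x))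
      (((LinearMap.id - i ∘ₗ π) ∘ₗ (𝒳.sub G).subtype).codRestrict _ fun x => hH' ⟨x, rfl⟩)
    have hF₀ : SE (A := F₀) F₀.subtype (Finsupp.lsubtypeDomain (R := R) (M := R) (J₀ : Set J)ᶜ) := by
      refine ⟨F₀.injective_subtype, fun x => ?_, fun x => ⟨x.extendDomain, ?_⟩⟩
      · constructor
        · intro hx
          refine ⟨⟨x, fun a ha => ?_⟩, rfl⟩
          by_contra h
          exact Finsupp.mem_support_iff.1 ha congr($hx ⟨a, h⟩)
        · rintro ⟨x, rfl⟩
          ext a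
          exact (Finsupp.notMem_support_iff (f := x.1)).1 fun h => a.2 (x.2 h)
      · exact Finsupp.subtypeDomain_extendDomain x
    have hinc := (hF₀.prodMap (SE.sub _)).cof (InA.of_projective.prod (𝒳.inA_quot hH))
    have hcomp := hσ.comp ((SE.sub _).cof (𝒳.inA_quot hG))
    have hσ₀ := Cof.cancel (A := 𝒳.sub G) (f := σ₀) (by exact hcomp) hinc
    have hmem : ∀ k ∈ s, i k ∈ 𝒳.sub G := fun k hk =>
      hG' (Submodule.subset_span ⟨k, hk, rfl⟩)
    have := nec_fp (M := M) (𝒳.sub G) (ψ ∘ₗ π ∘ₗ (𝒳.sub G).subtype) s Finset.univ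
      (fun k => w k) (fun k => ⟨i k, hmem k k.2⟩) (fun z' => by
        obtain ⟨z'', hz''⟩ := hσ₀.extend hM z'
        rw [← hw (z'' ∘ₗ LinearMap.inl R _ _ ∘ₗ Finsupp.restrictDom R R (J₀ : Set J)),
          ← Finset.sum_coe_sort s]
        refine Finset.sum_congr rfl fun k _ => ?_
        rw [← hz'']
        simp only [LinearMap.comp_apply]
        congr 2
        refine Prod.ext (Subtype.ext ?_) (Subtype.ext ?_)
        · have h1 := hJ₀ ⟨i k, hmem k k.2⟩
          simp only [LinearMap.comp_apply, Submodule.subtype_apply, hπ'] at h1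
          change ι (π (i k)) = (Finsupp.restrictDom R R (J₀ : Set J) (ι k) : J →₀ R)
          rw [hπ', Finsupp.restrictDom_apply]
          ext a
          by_cases ha : a ∈ J₀
          · simp [ha]
          · simp [ha, Finsupp.notMem_support_iff.1 fun h => ha (h1 h)]
        · simp [σ₀, hπ'])
    rw [← Finset.sum_coe_sort s]
    simpa [hπ'] using this)
  exact ⟨y, LinearMap.ext hy⟩

theorem CellFam.Perp.dd {𝒞 : CellFam R} {M : Type u} [AddCommGroup M] [Module R M]
    (h : 𝒞.Perp M) : 𝒞.Perp (DD R M) := fun c ψ => dd_extend (𝒞.u c) (h c) ψ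

variable {n : ℕ}

theorem IsTilting.inB_of_perp_aux (hT : IsTilting n T) (m : ℕ) :
    ∀ k, n ≤ k + m → ∀ (M : Type u) [AddCommGroup M] [Module R M],
      (cells T).Perp M → InB T k M := by
  induction m with
  | zero => intro k hk M _ _ _; exact (hT.inB_top _).mono (by omega)
  | succ m ih =>
    intro k hk
    have ih' := ih (k + 1) (by omega)
    obtain ⟨U, hU, hU'⟩ := exists_syzygy T k
    have hs := SE.ker (cover R U) cover_surjective
    obtain ⟨X, 𝒳, i, π, hπ⟩ := exists_cell_retract (T := T) (LinearMap.ker (cover R U))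
      (fun M _ _ hM => (EZ.syz_iff hs 0).2 ((hU' M 1).2 (ih' M hM (1 + k) (by omega))))
    have key : ∀ (M : Type u) [AddCommGroup M] [Module R M], (cells T).Perp M →
        (∀ ψ : LinearMap.ker (cover R U) →ₗ[R] M, ∃ y : (U →₀ R) →ₗ[R] M,
          y ∘ₗ (LinearMap.ker (cover R U)).subtype = ψ) → InB T k M := by
      intro M _ _ hM h j hj
      rcases hj.eq_or_lt with rfl | hj
      · have := (hU' M 0).1 (hs.of_extend h (EZ.of_projective _))
        rwa [zero_add] at this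
      · exact ih' M hM j hj
    intro M _ _ hM
    have hE : InB T k (DD R M) := key _ hM.dd (dd_extend_free 𝒳 i π hπ hs hU hM)
    have hW : InB T k (𝒳.W (DD R M)) := hT.inB_dfinsupp k _ fun _ => InB.pi fun _ => hE
    have hW' : EZ R U (𝒳.W (DD R M)) 1 := (hU' _ 0).2 (by rw [zero_add]; exact hW k le_rfl)
    exact key M hM (𝒳.extend_of_pure (K := LinearMap.ker (cover R U)) i π hπ _ (ev R M)
      (fun κ s g b y => dd_pure s g b y) hM.dd (hs.extend hW'))

theorem IsTilting.inB_of_perp (hT : IsTilting n T) {M : Type u} [AddCommGroup M] [Module R M]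
    (hM : (cells T).Perp M) : InB T 0 M :=
  hT.inB_of_perp_aux n 0 (by omega) M hM

theorem IsTilting.factor_fp (hT : IsTilting n T) {U P : Type u} [AddCommGroup U] [Module R U]
    [AddCommGroup P] [Module R P] [Module.Finite R P] (hU : InA T U) (φ : P →ₗ[R] U) :
    ∃ (S : FPM R) (a : P →ₗ[R] S.car) (b : S.car →ₗ[R] U), InA T S.car ∧ b ∘ₗ a = φ := by
  obtain ⟨X, 𝒳, i, π, hπ⟩ := exists_cell_retract (T := T) U
    (fun M _ _ hM => hU M (hT.inB_of_perp hM))
  obtain ⟨G, hG, hG'⟩ := CellCx.exists_closed_of_fg (𝒳 := 𝒳) (Submodule.fg_range (i ∘ₗ φ))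
  have hfp := CellCx.finitePresentation_sub G hG
  obtain ⟨S, ⟨e⟩⟩ := exists_fpm (R := R) (𝒳.sub G)
  refine ⟨S, e.toLinearMap ∘ₗ (i ∘ₗ φ).codRestrict _ fun x => hG' ⟨x, rfl⟩,
    π ∘ₗ (𝒳.sub G).subtype ∘ₗ e.symm.toLinearMap,
    ((SE.sub _).inA₁ 𝒳.inA (𝒳.inA_quot hG)).equiv e.symm, ?_⟩
  ext x
  simpa using congr($hπ (φ x))

end Pool.Agent.MP_46786a_al

end

section

open CategoryTheory CategoryTheory.Limits

universe u

namespace Pool.Agent.MP_46786a_al

variable {R : Type u} [Ring R] (T : ModuleCat.{u} R) (N : ModuleCat.{u} R)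

/-- Finite modules over `N` with finitely many prescribed fillers. -/
structure Obj where
  S : FPM R
  inA : InA T S.car
  f : S.car →ₗ[R] N
  D : PD (cells T) S.car
  fin : D.Finite
  good : Good f D

variable {T N}

instance : Category.{u} (Obj T N) where
  Hom i j := {h : i.S.car →ₗ[R] j.S.car // j.f ∘ₗ h = i.f ∧
    ∀ c σ, ⟨c, σ⟩ ∈ i.D →
      (⟨c, h ∘ₗ σ⟩ : Σ c : (cells T).C, ((cells T).V c →ₗ[R] j.S.car)) ∈ j.D}
  id i := ⟨LinearMap.id, rfl, fun _ _ h => h⟩
  comp a b := ⟨b.1 ∘ₗ a.1, by rw [← LinearMap.comp_assoc, b.2.1, a.2.1],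
    fun c σ h => b.2.2 c _ (a.2.2 c σ h)⟩

variable (T N) in
/-- Maps from finitely presented modules to `N` factor through finitely presented modules
of the left class. -/
def Fac : Prop := ∀ (P : Type u) [AddCommGroup P] [Module R P] [Module.FinitePresentation R P]
  (φ : P →ₗ[R] N), ∃ (S : FPM R) (a : P →ₗ[R] S.car) (b : S.car →ₗ[R] N),
    InA T S.car ∧ b ∘ₗ a = φ

theorem Fac.amalg (hN : Fac T N) (P : Type u) [AddCommGroup P] [Module R P]
    [Module.FinitePresentation R P] (φ : P →ₗ[R] N) (D : PD (cells T) P) (hD : D.Finite)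
    (L : Submodule R P) (hL : L.FG) (hL' : L ≤ LinearMap.ker φ) :
    ∃ (k : Obj T N) (h : P →ₗ[R] k.S.car), k.f ∘ₗ h = φ ∧ L ≤ LinearMap.ker h ∧
      ∀ c σ, ⟨c, σ⟩ ∈ D →
        (⟨c, h ∘ₗ σ⟩ : Σ c : (cells T).C, ((cells T).V c →ₗ[R] k.S.car)) ∈ k.D := by
  let B : Set (Σ c : (cells T).C, ((cells T).V c →ₗ[R] P) × ((cells T).V c →ₗ[R] P)) :=
    {s | ⟨s.1, s.2.1⟩ ∈ D ∧ ⟨s.1, s.2.2⟩ ∈ D ∧ φ ∘ₗ s.2.1 = φ ∘ₗ s.2.2}
  have hB : B.Finite := by
    refine Set.Finite.of_finite_image (f := fun s => ((⟨s.1, s.2.1⟩, ⟨s.1, s.2.2⟩) :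
      (Σ c : (cells T).C, ((cells T).V c →ₗ[R] P)) × (Σ c : (cells T).C, ((cells T).V c →ₗ[R] P))))
      ((hD.prod hD).subset ?_) ?_
    · rintro _ ⟨s, hs, rfl⟩
      exact ⟨hs.1, hs.2.1⟩
    · rintro ⟨c, σ₁, σ₂⟩ - ⟨c', σ₁', σ₂'⟩ - h
      obtain ⟨h1, h2⟩ := Prod.mk.inj h
      obtain ⟨rfl, h3⟩ := Sigma.mk.inj h1
      obtain ⟨-, h4⟩ := Sigma.mk.inj h2
      obtain rfl : σ₁ = σ₁' := eq_of_heq h3
      obtain rfl : σ₂ = σ₂' := eq_of_heq h4
      rfl
  have := hB.to_subtype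
  let L' : Submodule R P := L ⊔ ⨆ s : B, LinearMap.range (s.1.2.1 - s.1.2.2)
  have hfg : L'.FG := hL.sup (Submodule.fg_iSup _ fun s => Submodule.fg_range _)
  have hker : L' ≤ LinearMap.ker φ := sup_le hL' (iSup_le fun s => by
    rw [LinearMap.range_le_ker_iff, LinearMap.comp_sub, s.2.2.2, sub_self])
  have hfp : Module.FinitePresentation R (P ⧸ L') :=
    Module.finitePresentation_of_surjective L'.mkQ L'.mkQ_surjective
      (by rw [Submodule.ker_mkQ]; exact hfg)
  obtain ⟨S, a, b, hS, hab⟩ := hN (P ⧸ L') (L'.liftQ φ hker)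
  have h1 : b ∘ₗ a ∘ₗ L'.mkQ = φ := by
    rw [← LinearMap.comp_assoc, hab, Submodule.liftQ_mkQ]
  have h2 : L' ≤ LinearMap.ker (a ∘ₗ L'.mkQ) := fun x hx => by
    simp [(Submodule.Quotient.mk_eq_zero _).2 hx]
  refine ⟨⟨S, hS, b, (fun s => ⟨s.1, (a ∘ₗ L'.mkQ) ∘ₗ s.2⟩) '' D, hD.image _, ?_⟩,
    a ∘ₗ L'.mkQ, h1, le_sup_left.trans h2, fun c σ h => ⟨⟨c, σ⟩, h, rfl⟩⟩
  rintro c σ σ' ⟨⟨c₁, σ₁⟩, hσ₁, e₁⟩ ⟨⟨c₂, σ₂⟩, hσ₂, e₂⟩ h
  obtain ⟨rfl, e₁'⟩ := Sigma.mk.inj e₁
  obtain ⟨rfl, e₂'⟩ := Sigma.mk.inj e₂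
  obtain rfl := eq_of_heq e₁'
  obtain rfl := eq_of_heq e₂'
  have h' : φ ∘ₗ σ₁ = φ ∘ₗ σ₂ := by
    rw [← h1]
    exact h
  rw [← sub_eq_zero, ← LinearMap.comp_sub, ← LinearMap.range_le_ker_iff]
  exact (le_sup_of_le_right (le_iSup_of_le (⟨⟨_, σ₁, σ₂⟩, hσ₁, hσ₂, h'⟩ : B) le_rfl)).trans h2

theorem Fac.amalg₂ (hN : Fac T N) (i : Obj T N) (P : Type u) [AddCommGroup P] [Module R P]
    [Module.FinitePresentation R P] (φ : P →ₗ[R] N) (D : PD (cells T) P) (hD : D.Finite)
    (L : Submodule R (i.S.car × P)) (hL : L.FG) (hL' : L ≤ LinearMap.ker (i.f.coprod φ)) :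
    ∃ (k : Obj T N) (a : i ⟶ k) (h : P →ₗ[R] k.S.car), k.f ∘ₗ h = φ ∧
      L ≤ LinearMap.ker (a.1.coprod h) ∧
      ∀ c σ, ⟨c, σ⟩ ∈ D →
        (⟨c, h ∘ₗ σ⟩ : Σ c : (cells T).C, ((cells T).V c →ₗ[R] k.S.car)) ∈ k.D := by
  obtain ⟨k, h, h1, h2, h3⟩ := hN.amalg (i.S.car × P) (i.f.coprod φ)
    ((fun s : Σ c : (cells T).C, ((cells T).V c →ₗ[R] i.S.car) =>
        ⟨s.1, LinearMap.inl R _ _ ∘ₗ s.2⟩) '' i.D ∪
      (fun s : Σ c : (cells T).C, ((cells T).V c →ₗ[R] P) =>
        ⟨s.1, LinearMap.inr R _ _ ∘ₗ s.2⟩) '' D) ((i.fin.image _).union (hD.image _))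
    L hL hL'
  refine ⟨k, ⟨h ∘ₗ LinearMap.inl R _ _, ?_, fun c σ hσ => h3 c _ (Or.inl ⟨⟨c, σ⟩, hσ, rfl⟩)⟩,
    h ∘ₗ LinearMap.inr R _ _, ?_, ?_, fun c σ hσ => h3 c _ (Or.inr ⟨⟨c, σ⟩, hσ, rfl⟩)⟩
  · rw [← LinearMap.comp_assoc, h1, LinearMap.coprod_inl]
  · rw [← LinearMap.comp_assoc, h1, LinearMap.coprod_inr]
  · rwa [LinearMap.coprod_comp_inl_inr]

theorem Fac.isFiltered (hN : Fac T N) : IsFiltered (Obj T N) where
  cocone_objs i j := by
    obtain ⟨k, a, h, h1, -, h2⟩ := hN.amalg₂ i j.S.car j.f j.D j.fin ⊥ Submodule.fg_bot bot_le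
    exact ⟨k, a, ⟨h, h1, h2⟩, trivial⟩
  cocone_maps i j a b := by
    obtain ⟨k, h, h1, h2, h3⟩ := hN.amalg j.S.car j.f j.D j.fin (LinearMap.range (a.1 - b.1))
      (Submodule.fg_range _) (by
        rw [LinearMap.range_le_ker_iff, LinearMap.comp_sub, a.2.1, b.2.1, sub_self])
    refine ⟨k, ⟨h, h1, h3⟩, Subtype.ext ?_⟩
    rw [LinearMap.range_le_ker_iff, LinearMap.comp_sub, sub_eq_zero] at h2
    exact h2
  nonempty := by
    obtain ⟨k, -⟩ := hN.amalg PUnit.{u + 1} 0 ∅ Set.finite_empty ⊥ Submodule.fg_bot bot_le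
    exact ⟨k⟩

/-- The free algebra on an object. -/
noncomputable def Obj.Z (i : Obj T N) : Alg.{u} (cells T) N := (exists_free i.good).choose

/-- The unit of the free algebra. -/
noncomputable def Obj.η (i : Obj T N) : i.S.car →ₗ[R] i.Z.car :=
  (exists_free i.good).choose_spec.choose

theorem Obj.isFree (i : Obj T N) : IsFree i.f i.D i.Z i.η :=
  (exists_free i.good).choose_spec.choose_spec

theorem Obj.exists_map {i j : Obj T N} (a : i ⟶ j) :
    ∃ φ, IsHom i.Z j.Z φ ∧ φ ∘ₗ i.η = j.η ∘ₗ a.1 := by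
  refine i.isFree.univ _ _ ⟨?_, fun c σ hσ => ?_⟩
  · rw [← LinearMap.comp_assoc, j.isFree.compat.base, a.2.1]
  · have := j.isFree.compat.fill c _ (a.2.2 c σ hσ)
    rw [← LinearMap.comp_assoc σ a.1 j.f, a.2.1] at this
    exact this

/-- The transition maps. -/
noncomputable def Obj.map {i j : Obj T N} (a : i ⟶ j) : i.Z.car →ₗ[R] j.Z.car :=
  (Obj.exists_map a).choose

theorem Obj.isHom_map {i j : Obj T N} (a : i ⟶ j) : IsHom i.Z j.Z (Obj.map a) :=
  (Obj.exists_map a).choose_spec.1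

theorem Obj.map_η {i j : Obj T N} (a : i ⟶ j) : Obj.map a ∘ₗ i.η = j.η ∘ₗ a.1 :=
  (Obj.exists_map a).choose_spec.2

theorem Obj.map_id (i : Obj T N) : Obj.map (𝟙 i) = LinearMap.id :=
  i.isFree.hom_ext (Obj.isHom_map _) (IsHom.id _) (Obj.map_η _)

theorem Obj.map_comp {i j k : Obj T N} (a : i ⟶ j) (b : j ⟶ k) :
    Obj.map (a ≫ b) = Obj.map b ∘ₗ Obj.map a :=
  i.isFree.hom_ext (Obj.isHom_map _) ((Obj.isHom_map b).comp (Obj.isHom_map a)) (by
    rw [Obj.map_η, LinearMap.comp_assoc, Obj.map_η, ← LinearMap.comp_assoc, Obj.map_η]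
    rfl)

variable (T N) in
/-- The diagram of free algebras. -/
noncomputable def diag : Obj T N ⥤ ModuleCat.{u} R where
  obj i := i.Z.car
  map a := ModuleCat.ofHom (Obj.map a)
  map_id i := ModuleCat.hom_ext (Obj.map_id i)
  map_comp a b := ModuleCat.hom_ext (Obj.map_comp a b)

variable (T N) in
/-- The cocone with vertex `N`. -/
noncomputable def diagCocone : Cocone (diag T N) where
  pt := N
  ι := { app := fun i => ModuleCat.ofHom i.Z.q
         naturality := fun _ _ a => ModuleCat.hom_ext (Obj.isHom_map a).q }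

theorem Obj.abs_mono {i j k : Obj T N} (a : i ⟶ j) (b : j ⟶ k) :
    (LinearMap.range j.η).comap (Obj.map a) ≤ (LinearMap.range k.η).comap (Obj.map (a ≫ b)) := by
  rintro z ⟨s, hs⟩
  refine ⟨b.1 s, ?_⟩
  rw [Obj.map_comp, LinearMap.comp_apply, ← hs]
  exact congr($(Obj.map_η b) s).symm

theorem Fac.absorb (hN : Fac T N) (i : Obj T N) (z : i.Z.car) :
    ∃ (j : Obj T N) (a : i ⟶ j) (s : j.S.car), j.η s = Obj.map a z := by
  have := hN.isFiltered
  let A : (Σ j : Obj T N, i ⟶ j) → Submodule R i.Z.car :=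
    fun p => (LinearMap.range p.1.η).comap (Obj.map p.2)
  have hdir : Directed (· ≤ ·) A := by
    rintro ⟨j, a⟩ ⟨j', a'⟩
    obtain ⟨k, b, b', h⟩ := IsFiltered.span a a'
    exact ⟨⟨k, a ≫ b⟩, Obj.abs_mono a b, h ▸ Obj.abs_mono a' b'⟩
  have hne : Nonempty (Σ j : Obj T N, i ⟶ j) := ⟨⟨i, 𝟙 i⟩⟩
  have htop : ⨆ p, A p = ⊤ := by
    refine i.isFree.gen _ (le_iSup_of_le ⟨i, 𝟙 i⟩ ?_) fun c ψ τ hc hψ => ?_
    · intro z hz
      change Obj.map (𝟙 i) z ∈ LinearMap.range i.η
      rw [Obj.map_id]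
      exact hz
    · obtain ⟨_, ⟨⟨j, a⟩, rfl⟩, h1⟩ :=
        (CompleteLattice.isCompactElement_iff_le_of_directed_sSup_le _ _).1
          ((Submodule.fg_iff_compact _).1 (Submodule.fg_range ψ)) (Set.range A)
          (Set.range_nonempty A) (directedOn_range.2 hdir) hψ
      let ψ' : (cells T).U c →ₗ[R] j.S.car :=
        (LinearEquiv.ofInjective j.η j.isFree.inj).symm.toLinearMap ∘ₗ
          (Obj.map a ∘ₗ ψ).codRestrict _ fun x => h1 ⟨x, rfl⟩
      have h2 : j.η ∘ₗ ψ' = Obj.map a ∘ₗ ψ := by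
        ext x
        simp [ψ']
      have h3 : j.f ∘ₗ ψ' = τ ∘ₗ (cells T).u c := by
        rw [← j.isFree.compat.base, LinearMap.comp_assoc, h2, ← LinearMap.comp_assoc,
          (Obj.isHom_map a).q, hc]
      obtain ⟨k, b, σ, h4, h5, h6⟩ := hN.amalg₂ j ((cells T).V c) τ {⟨c, LinearMap.id⟩}
        (Set.finite_singleton _) (LinearMap.range (ψ'.prod (-(cells T).u c)))
        (Submodule.fg_range _) (by
          rw [LinearMap.range_le_ker_iff, LinearMap.coprod_comp_prod, h3, LinearMap.comp_neg,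
            add_neg_cancel])
      rw [LinearMap.range_le_ker_iff, LinearMap.coprod_comp_prod, LinearMap.comp_neg,
        add_neg_eq_zero] at h5
      have h7 := k.isFree.compat.fill c σ (h6 c _ rfl)
      have h8 := (Obj.isHom_map (a ≫ b)).fill c ψ τ hc
      rw [Obj.map_comp, LinearMap.comp_assoc ψ, ← h2, ← LinearMap.comp_assoc ψ', Obj.map_η,
        LinearMap.comp_assoc ψ', h5, ← h4, h7, h4, ← Obj.map_comp] at h8
      refine le_iSup_of_le ⟨k, a ≫ b⟩ ?_
      rintro _ ⟨v, rfl⟩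
      exact ⟨σ v, congr($h8 v).symm⟩
  obtain ⟨⟨j, a⟩, s, hs⟩ := (Submodule.mem_iSup_of_directed A hdir).1
    (htop ▸ Submodule.mem_top : z ∈ ⨆ p, A p)
  exact ⟨j, a, s, hs⟩

theorem Fac.isColimit (hN : Fac T N) : Nonempty (IsColimit (diagCocone T N)) := by
  have := hN.isFiltered
  refine ⟨isColimitOfReflects (forget (ModuleCat.{u} R))
    (Types.FilteredColimit.isColimitOf' _ _ (fun x => ?_) fun i x y hxy => ?_)⟩
  · obtain ⟨k, h, h1, -⟩ := hN.amalg R (LinearMap.toSpanSingleton R N x) ∅ Set.finite_empty ⊥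
      Submodule.fg_bot bot_le
    refine ⟨k, k.η (h 1), ?_⟩
    change x = k.Z.q (k.η (h 1))
    have h2 := congr($(k.isFree.compat.base) (h 1))
    have h3 := congr($h1 1)
    simp only [LinearMap.comp_apply, LinearMap.toSpanSingleton_apply, one_smul] at h2 h3
    rw [h2, h3]
  · change i.Z.car at x y
    change i.Z.q x = i.Z.q y at hxy
    obtain ⟨j, a, s, hs⟩ := hN.absorb i (x - y)
    have h1 : j.f s = 0 := by
      have h2 := congr($(j.isFree.compat.base) s)
      have h3 := congr($((Obj.isHom_map a).q) (x - y))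
      simp only [LinearMap.comp_apply] at h2 h3
      rw [← h2, hs, h3, map_sub, hxy, sub_self]
    obtain ⟨k, h, h2, h3, h4⟩ := hN.amalg j.S.car j.f j.D j.fin (Submodule.span R {s})
      (Submodule.fg_span_singleton s) (by simpa using h1)
    let b : j ⟶ k := ⟨h, h2, h4⟩
    refine ⟨k, a ≫ b, ?_⟩
    change Obj.map (a ≫ b) x = Obj.map (a ≫ b) y
    rw [← sub_eq_zero, ← map_sub, Obj.map_comp, LinearMap.comp_apply, ← hs]
    have h5 := congr($(Obj.map_η b) s)
    have h6 : h s = 0 := h3 (Submodule.mem_span_singleton_self s)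
    simp only [LinearMap.comp_apply] at h5
    rw [h5]
    change k.η (h s) = 0
    rw [h6, map_zero]

theorem Obj.inA_Z (i : Obj T N) : InA T i.Z.car := by
  intro E _ _ hE
  obtain ⟨I, hI, f, hf⟩ := exists_injective_embedding R E
  have hs := SE.coker f hf
  refine hs.of_lift (fun χ => ?_) (EZ.of_injective _)
  let p := (LinearMap.range f).mkQ
  obtain ⟨φ₀, hφ₀⟩ := hs.lift (i.inA E hE) (χ ∘ₗ i.η)
  have key : ∀ c (ψ : (cells T).U c →ₗ[R] i.Z.car) (τ : (cells T).V c →ₗ[R] N)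
      (ψ' : (cells T).U c →ₗ[R] I), ∃ τ' : (cells T).V c →ₗ[R] I,
      τ' ∘ₗ (cells T).u c = ψ' ∧ (i.Z.q ∘ₗ ψ = τ ∘ₗ (cells T).u c → p ∘ₗ ψ' = χ ∘ₗ ψ →
        p ∘ₗ τ' = χ ∘ₗ i.Z.fill c ψ τ) := by
    intro c ψ τ ψ'
    by_cases h : i.Z.q ∘ₗ ψ = τ ∘ₗ (cells T).u c ∧ p ∘ₗ ψ' = χ ∘ₗ ψ
    · obtain ⟨τ', h1, h2⟩ := lift_along ((cells T).inj c) hs (c.cof.inA E hE) ψ'
        (χ ∘ₗ i.Z.fill c ψ τ) (by rw [LinearMap.comp_assoc, i.Z.fill_u c ψ τ h.1]; exact h.2)
      exact ⟨τ', h1, fun _ _ => h2⟩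
    · obtain ⟨τ', h1⟩ := (cells T).perp_of_injective I c ψ'
      exact ⟨τ', h1, fun a b => (h ⟨a, b⟩).elim⟩
  choose ρ hρ hρ' using key
  obtain ⟨φ, h1, h2⟩ := i.isFree.recursion i.good I φ₀ ρ fun c ψ τ ψ' _ => hρ c ψ τ ψ'
  have h3 : LinearMap.range i.η ≤ LinearMap.eqLocus (p ∘ₗ φ) χ := by
    rintro _ ⟨x, rfl⟩
    have h4 := congr($h1 x)
    simp only [LinearMap.comp_apply] at h4
    change p (φ (i.η x)) = χ (i.η x)
    rw [h4]
    exact congr($hφ₀ x)
  refine ⟨φ, LinearMap.eqLocus_eq_top.1 (i.isFree.gen _ h3 fun c ψ τ hc hψ => ?_)⟩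
  rcases h2 c ψ τ hc with ⟨σ, -, h4⟩ | h4
  · rw [h4]
    exact (LinearMap.range_comp_le_range _ _).trans h3
  · rintro _ ⟨v, rfl⟩
    have h5 := hρ' c ψ τ (φ ∘ₗ ψ) hc (LinearMap.ext fun x => hψ ⟨x, rfl⟩)
    rw [← h4] at h5
    exact congr($h5 v)

theorem Obj.perp_Z (hN : (cells T).Perp N) (i : Obj T N) : (cells T).Perp i.Z.car := by
  intro c ψ
  obtain ⟨τ, hτ⟩ := hN c (i.Z.q ∘ₗ ψ)
  exact ⟨_, i.Z.fill_u c ψ τ hτ.symm⟩

theorem IsPureSubmodule.lift {F P : Type u} [AddCommGroup F] [Module R F] [AddCommGroup P]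
    [Module R P] [Module.FinitePresentation R P] {p : F →ₗ[R] N} (hp : Function.Surjective p)
    (h : IsPureSubmodule (LinearMap.ker p)) (φ : P →ₗ[R] N) : ∃ ψ : P →ₗ[R] F, p ∘ₗ ψ = φ := by
  obtain ⟨n, m, f, g, hf, hg⟩ := Module.FinitePresentation.exists_fin' R P
  choose x hx using fun j : Fin n => hp (φ (f (Pi.single j 1)))
  have h1 : ∀ w : Fin n → R, p (∑ j, w j • x j) = φ (f w) := fun w => by
    conv_rhs => rw [pi_eq_sum_univ' w]
    simp only [map_sum, map_smul, hx]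
  obtain ⟨y, hy, hy'⟩ := h m n (fun i j => g (Pi.single i 1) j)
    (fun i => ∑ j, g (Pi.single i 1) j • x j)
    (fun i => by rw [LinearMap.mem_ker, h1, hg.apply_apply_eq_zero, map_zero]) ⟨x, fun _ => rfl⟩
  let l : (Fin n → R) →ₗ[R] F := Fintype.linearCombination R (x - y)
  have h2 : LinearMap.ker f ≤ LinearMap.ker l := by
    rw [LinearMap.exact_iff.1 hg, LinearMap.range_le_ker_iff]
    ext i
    simp [l, Fintype.linearCombination_apply, smul_sub, hy' i]
  refine ⟨(LinearMap.ker f).liftQ l h2 ∘ₗ (f.quotKerEquivOfSurjective hf).symm.toLinearMap, ?_⟩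
  ext v
  obtain ⟨w, rfl⟩ := hf v
  have h3 : ∀ j, p (y j) = 0 := hy
  have h4 := h1 w
  simp only [map_sum, map_smul] at h4
  simp [l, Fintype.linearCombination_apply, h3, h4]

theorem IsTilting.inDirectLimitAdd {n : ℕ} (hT : IsTilting n T) (h : InPureImageAdd T N) :
    InDirectLimitAdd T N := by
  obtain ⟨X, p, hp, hp'⟩ := h
  have hfac : Fac T N := by
    intro P _ _ _ φ
    obtain ⟨ψ, rfl⟩ := hp'.lift hp φ
    obtain ⟨S, a, b, hS, rfl⟩ := hT.factor_fp (InA.self.finsupp X) ψ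
    exact ⟨S, a, p ∘ₗ b, hS, rfl⟩
  have hperp : (cells T).Perp N := by
    intro c φ
    obtain ⟨ψ, rfl⟩ := hp'.lift hp φ
    obtain ⟨τ, rfl⟩ := (hT.inB_finsupp X).perp c ψ
    exact ⟨p ∘ₗ τ, rfl⟩
  have := hfac.isFiltered
  obtain ⟨I, _, _, _, G, _⟩ := IsFiltered.exists_directed (Obj T N)
  obtain ⟨hc⟩ := hfac.isColimit
  exact ⟨I, inferInstance, inferInstance, inferInstance, G ⋙ diag T N, (diagCocone T N).whisker G,
    fun i => hT.inAdd (G.obj i).inA_Z (hT.inB_of_perp ((G.obj i).perp_Z hperp)),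
    ⟨(Functor.Final.isColimitWhiskerEquiv G _).symm hc⟩, ⟨Iso.refl _⟩⟩

end Pool.Agent.MP_46786a_al

end

section

open CategoryTheory CategoryTheory.Limits

universe u

namespace Pool.Agent.MP_46786a_al

variable {R : Type u} [Ring R] {M N : ModuleCat.{u} R}

theorem InDirectLimitAdd.inPureImageAdd (h : InDirectLimitAdd M N) : InPureImageAdd M N := by
  classical
  obtain ⟨I, _, _, _, F, c, hF, ⟨hc⟩, ⟨e⟩⟩ := h
  choose X i p hip using hF
  let g : ∀ a, F.obj a →ₗ[R] N := fun a => e.hom.hom ∘ₗ (c.ι.app a).hom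
  have hg : ∀ {a b} (h : a ≤ b) (x : F.obj a), g b (F.map (homOfLE h) x) = g a x :=
    fun h x => congrArg e.hom.hom (ConcreteCategory.congr_hom (c.w (homOfLE h)) x)
  have hsurj : ∀ y : N, ∃ a x, g a x = y := fun y => by
    obtain ⟨a, x, hx⟩ := Concrete.isColimit_exists_rep F hc (e.inv y)
    refine ⟨a, x, ?_⟩
    change e.hom (c.ι.app a x) = y
    rw [hx]
    simp
  have hinj : ∀ a (x : F.obj a), g a x = 0 → ∃ b, ∃ h : a ≤ b, F.map (homOfLE h) x = 0 := by
    intro a x hx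
    have h1 : c.ι.app a x = c.ι.app a (0 : F.obj a) := by
      rw [map_zero]
      exact e.toLinearEquiv.injective (hx.trans (map_zero _).symm)
    obtain ⟨b, f, f', h2⟩ := Concrete.isColimit_exists_of_rep_eq F hc x 0 h1
    exact ⟨b, leOfHom f, by rw [map_zero] at h2; exact h2⟩
  let q : ((Σ a, X a) →₀ M) →ₗ[R] N :=
    Finsupp.lsum ℕ fun s => g s.1 ∘ₗ p s.1 ∘ₗ Finsupp.lsingle s.2
  let j : ∀ a, F.obj a →ₗ[R] ((Σ a, X a) →₀ M) := fun a =>
    Finsupp.lmapDomain M R (Sigma.mk a) ∘ₗ i a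
  have hq : ∀ a x, q (j a x) = g a x := by
    intro a x
    have h1 : q ∘ₗ Finsupp.lmapDomain M R (Sigma.mk a) = g a ∘ₗ p a := by
      ext y m
      simp [q]
    have h2 := congr($h1 (i a x))
    have h3 : p a (i a x) = x := congr($(hip a) x)
    simpa [h3, j] using h2
  refine ⟨Σ a, X a, q, fun y => ?_, fun m n r k hk ⟨x, hx⟩ => ?_⟩
  · obtain ⟨a, x, rfl⟩ := hsurj y
    exact ⟨_, hq a x⟩
  · choose a y hy using fun t => hsurj (q (x t))
    obtain ⟨b, hb⟩ := Finite.exists_le a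
    let y₁ : Fin n → F.obj b := fun t => F.map (homOfLE (hb t)) (y t)
    have hy₁ : ∀ t, g b (y₁ t) = q (x t) := fun t => (hg (hb t) _).trans (hy t)
    choose b' hb' h0 using fun s => hinj b (∑ t, r s t • y₁ t) (by
      simp only [map_sum, map_smul, hy₁]
      have := hk s
      rw [← hx s] at this
      simpa using this)
    obtain ⟨d, hd'⟩ := Finite.exists_le (fun o : Option (Fin m) => o.elim b b')
    have hd : b ≤ d := hd' none
    have hd₂ : ∀ s, b' s ≤ d := fun s => hd' (some s)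
    let y₂ : Fin n → F.obj d := fun t => F.map (homOfLE hd) (y₁ t)
    have hy₂ : ∀ s, ∑ t, r s t • y₂ t = 0 := fun s => by
      have h1 : F.map (homOfLE hd) =
          F.map (homOfLE (hb' s)) ≫ F.map (homOfLE (hd₂ s)) := by
        rw [← F.map_comp]
        rfl
      have h2 : F.map (homOfLE hd) (∑ t, r s t • y₁ t) = 0 := by
        rw [h1, ConcreteCategory.comp_apply, h0 s, map_zero]
      simpa only [map_sum, map_smul] using h2
    refine ⟨fun t => x t - j d (y₂ t), fun t => ?_, fun s => ?_⟩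
    · rw [LinearMap.mem_ker, map_sub, hq, sub_eq_zero]
      exact ((hg hd _).trans (hy₁ t)).symm
    · have h3 := congrArg (j d) (hy₂ s)
      simp only [map_sum, map_smul, map_zero] at h3
      simp only [smul_sub, Finset.sum_sub_distrib, hx, h3, sub_zero]

end Pool.Agent.MP_46786a_al

end
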